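import Pool.Agent.Work.MP_8a95ee_gt.Sp.Cycle
import Pool.Agent.Work.MP_8a95ee_gt.PartOneA

/-!
The bounded cocycle on the universal cover of a special cube complex given by functions on tuples
of simplices of the links of the vertices.
-/

set_option autoImplicit false

namespace MP8a95ee.Sp

open MP8a95ee.RACG
open PartOne (dl dl_dl)

open scoped Classical

noncomputable section

namespace Cx

variable {V X : Type} [Fintype V] [Fintype X] (C : Cx V X)

/-- `g` and `h` are not separated by a mirror of `x`, i.e. by a wall whose reflection fixes `x` -/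
def Conn (x : X) (g h : W C.G) : Prop := ∀ t, C.act t x = x → ¬ Sep C.G g h t

omit [Fintype V] [Fintype X] in
theorem act_inv_act (g : W C.G) (x : X) : C.act g⁻¹ (C.act g x) = x := by
  rw [← Equiv.Perm.mul_apply, ← map_mul, inv_mul_cancel, map_one, Equiv.Perm.one_apply]

omit [Fintype V] [Fintype X] in
theorem act_act_inv (g : W C.G) (x : X) : C.act g (C.act g⁻¹ x) = x := by
  rw [← Equiv.Perm.mul_apply, ← map_mul, mul_inv_cancel, map_one, Equiv.Perm.one_apply]

omit [Fintype V] [Fintype X] in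
theorem conn_refl (x : X) (g : W C.G) : C.Conn x g g := fun t _ => not_sep_self C.G g t

omit [Fintype V] [Fintype X] in
theorem conn_symm {x : X} {g h : W C.G} (hc : C.Conn x g h) : C.Conn x h g := fun t ht hs =>
  hc t ht ((sep_comm C.G).1 hs)

omit [Fintype V] [Fintype X] in
theorem conn_trans {x : X} {g h k : W C.G} (h1 : C.Conn x g h) (h2 : C.Conn x h k) :
    C.Conn x g k := by
  intro t ht hs
  have e1 := h1 t ht
  have e2 := h2 t ht
  have e3 := sep_trans_iff C.G g h k t
  tauto

omit [Fintype V] [Fintype X] in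
theorem conn_mul (x : X) (g h k : W C.G) : C.Conn (C.act g x) (g * h) (g * k) ↔ C.Conn x h k := by
  constructor
  · intro hc t ht hs
    refine hc (g * t * g⁻¹) ?_ ((sep_mul C.G g h k t).2 hs)
    rw [map_mul, map_mul, Equiv.Perm.mul_apply, Equiv.Perm.mul_apply, C.act_inv_act, ht]
  · intro hc t ht hs
    have h1 := sep_mul C.G g h k (g⁻¹ * t * g)
    have e : g * (g⁻¹ * t * g) * g⁻¹ = t := by group
    rw [e] at h1
    refine hc (g⁻¹ * t * g) ?_ (h1.1 hs)
    rw [map_mul, map_mul, Equiv.Perm.mul_apply, Equiv.Perm.mul_apply, ht, C.act_inv_act]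

omit [Fintype X] in
/-- first letters towards a chamber in the same component are directions of a cube -/
theorem isCube_fl {x : X} {w g : W C.G} (h : C.Conn x w g) :
    C.IsCube (C.act w⁻¹ x) (fl C.G w g) := by
  refine ⟨fun a ha hax => ?_, fun a ha b hb hab => fl_adj C.G ha hb hab⟩
  rw [mem_fl] at ha
  refine h _ ?_ ha
  rw [map_mul, map_mul, Equiv.Perm.mul_apply, Equiv.Perm.mul_apply, act_gen, hax,
    C.act_act_inv]

omit [Fintype V] [Fintype X] in
theorem conn_step (i : X) (g : W C.G) {T : Finset V} (hT : C.IsCube i T) :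
    C.Conn (C.act g i) g (g * wT C.G T) := by
  have h := (C.conn_mul i g 1 (wT C.G T)).2 ?_
  · rwa [mul_one] at h
  · intro t ht hs
    rw [sep_wT C.G hT.clq] at hs
    obtain ⟨a, ha, rfl⟩ := hs
    rw [act_gen] at ht
    exact hT.1 a ha ht

omit [Fintype V] [Fintype X] in
theorem compat (hE : C.Embedded) : Compat (C.flat hE) C.act C.Conn where
  act_tr i j u hi hj := by
    obtain ⟨T, hT, h1, h2, h3⟩ := C.flat_cube hE u hi hj
    exact h3
  refl := C.conn_refl
  symm _ _ _ := C.conn_symm
  trans _ _ _ _ := C.conn_trans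
  step i j u g hi hj := by
    obtain ⟨T, hT, h1, h2, h3⟩ := C.flat_cube hE u hi hj
    rw [flat_tr, h2]
    exact C.conn_step i g hT

/-- the cochain -/
def FX {n : ℕ} (f : X → (Fin n → Finset V) → ℝ) (x : X) (v : Fin (n + 1) → W C.G) : ℝ :=
  ∑ᶠ w : W C.G, if ∀ i, C.Conn x w (v i) then
    dl (f (C.act w⁻¹ x)) (fun i => fl C.G w (v i)) else 0

/-- admissible functions: the coboundary vanishes on `K` and all `F_PQ` -/
def Adm {n : ℕ} (f : X → (Fin n → Finset V) → ℝ) : Prop :=
  ∀ (y : X) (T : Fin (n + 1) → Finset V), (∀ i, C.IsCube y (T i)) → (∀ i, (T i).Nonempty) →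
    (InK T ∨ InF C.G T) → dl (f y) T = 0

variable {C}

omit [Fintype X] in
theorem finite_exc (C : Cx V X) {n : ℕ} (v : Fin (n + 1) → W C.G) :
    {x | ¬ InK (fun i => fl C.G x (v i)) ∧ ¬ InF C.G (fun i => fl C.G x (v i))}.Finite :=
  (finite_hull C.G v).subset fun _ hx => hx.1

/-- the exceptional set -/
def exc (C : Cx V X) {n : ℕ} (v : Fin (n + 1) → W C.G) : Finset (W C.G) :=
  (finite_exc C v).toFinset ∪ Finset.univ.image v

omit [Fintype X] in
theorem card_exc {n : ℕ} (v : Fin (n + 1) → W C.G) :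
    (exc C v).card ≤ Nat.card (Cfg V n) + (n + 1) := by
  unfold exc
  refine (Finset.card_union_le _ _).trans (add_le_add ?_ ?_)
  · rw [← Set.ncard_eq_toFinset_card _ (finite_exc C v)]
    exact bounded C.G v
  · refine Finset.card_image_le.trans ?_
    simp

omit [Fintype X] in
theorem term_eq_zero {n : ℕ} {f : X → (Fin n → Finset V) → ℝ} (hf : C.Adm f) (x : X)
    (v : Fin (n + 1) → W C.G) {w : W C.G} (hw : w ∉ exc C v) :
    (if ∀ i, C.Conn x w (v i) then
      dl (f (C.act w⁻¹ x)) (fun i => fl C.G w (v i)) else 0) = 0 := by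
  by_cases hc : ∀ i, C.Conn x w (v i)
  · rw [if_pos hc]
    unfold exc at hw
    rw [Finset.mem_union, not_or, Set.Finite.mem_toFinset] at hw
    refine hf _ _ (fun i => C.isCube_fl (hc i)) (fun i => ?_) ?_
    · refine fl_nonempty C.G fun h => hw.2 ?_
      exact Finset.mem_image.2 ⟨i, Finset.mem_univ _, h.symm⟩
    · by_contra hcon
      rw [not_or] at hcon
      exact hw.1 hcon
  · rw [if_neg hc]

omit [Fintype X] in
theorem FX_eq {n : ℕ} (f : X → (Fin n → Finset V) → ℝ) (x : X)
    (v : Fin (n + 1) → W C.G) (A : Finset (W C.G))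
    (hA : ∀ w, w ∉ A → (if ∀ i, C.Conn x w (v i) then
      dl (f (C.act w⁻¹ x)) (fun i => fl C.G w (v i)) else 0) = 0) :
    C.FX f x v = ∑ w ∈ A, if ∀ i, C.Conn x w (v i) then
      dl (f (C.act w⁻¹ x)) (fun i => fl C.G w (v i)) else 0 := by
  unfold FX
  refine finsum_eq_sum_of_support_subset _ fun w hw => ?_
  by_contra h
  exact hw (hA w (by simpa using h))

/-- the bounded cocycle -/
theorem xcocycle_exists {n : ℕ} {f : X → (Fin n → Finset V) → ℝ} (hf : C.Adm f) :
    ∃ K : XCocycle (W C.G) X C.act C.Conn n, ∀ x v, K.F x v = C.FX f x v := by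
  refine ⟨⟨C.FX f, (Nat.card (Cfg V n) + (n + 1) : ℕ) *
    ∑ y : X, ∑ T : Fin (n + 1) → Finset V, |dl (f y) T|, ?_, ?_, ?_⟩, fun _ _ => rfl⟩
  · intro x v
    rw [FX_eq f x v (exc C v) fun w hw => term_eq_zero hf x v hw]
    refine (Finset.abs_sum_le_sum_abs _ _).trans ?_
    have hnn : 0 ≤ ∑ y : X, ∑ T : Fin (n + 1) → Finset V, |dl (f y) T| :=
      Finset.sum_nonneg fun _ _ => Finset.sum_nonneg fun _ _ => abs_nonneg _
    have h1 : ∀ w ∈ exc C v, |if ∀ i, C.Conn x w (v i) then
        dl (f (C.act w⁻¹ x)) (fun i => fl C.G w (v i)) else 0| ≤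
        ∑ y : X, ∑ T : Fin (n + 1) → Finset V, |dl (f y) T| := by
      intro w _
      split_ifs
      · refine (Finset.single_le_sum (f := fun T : Fin (n + 1) → Finset V =>
          |dl (f (C.act w⁻¹ x)) T|) (fun T _ => abs_nonneg _)
          (Finset.mem_univ fun i => fl C.G w (v i))).trans ?_
        exact Finset.single_le_sum (f := fun y : X => ∑ T : Fin (n + 1) → Finset V,
          |dl (f y) T|) (fun y _ => Finset.sum_nonneg fun _ _ => abs_nonneg _)
          (Finset.mem_univ (C.act w⁻¹ x))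
      · rw [abs_zero]; exact hnn
    refine (Finset.sum_le_sum h1).trans ?_
    rw [Finset.sum_const, nsmul_eq_mul]
    refine mul_le_mul_of_nonneg_right ?_ hnn
    exact_mod_cast card_exc v
  · intro h x v
    unfold FX
    rw [← finsum_comp_equiv (Equiv.mulLeft h)]
    refine finsum_congr fun w => ?_
    simp only [Equiv.coe_mulLeft]
    have h1 : (∀ i, C.Conn (C.act h x) (h * w) (h * v i)) ↔ ∀ i, C.Conn x w (v i) :=
      forall_congr' fun i => C.conn_mul x h w (v i)
    have h2 : C.act (h * w)⁻¹ (C.act h x) = C.act w⁻¹ x := by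
      rw [← Equiv.Perm.mul_apply, ← map_mul]
      congr 2
      group
    by_cases hc : ∀ i, C.Conn x w (v i)
    · rw [if_pos (h1.2 hc), if_pos hc, h2]
      simp only [fl_mul]
    · rw [if_neg fun h' => hc (h1.1 h'), if_neg hc]
  · intro x v hv
    have h1 : ∀ i : Fin (n + 2), C.FX f x (fun k => v (i.succAbove k)) =
        ∑ w ∈ Finset.univ.biUnion fun i : Fin (n + 2) => exc C fun k => v (i.succAbove k),
          if ∀ k, C.Conn x w (v (i.succAbove k)) then
            dl (f (C.act w⁻¹ x)) (fun k => fl C.G w (v (i.succAbove k))) else 0 := by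
      intro i
      refine FX_eq f x _ _ fun w hw => term_eq_zero hf x _ fun h => hw ?_
      exact Finset.mem_biUnion.2 ⟨i, Finset.mem_univ _, h⟩
    simp only [h1, Finset.mul_sum]
    rw [Finset.sum_comm]
    refine Finset.sum_eq_zero fun w _ => ?_
    by_cases hc : C.Conn x w (v 0)
    · have hc' : ∀ j, C.Conn x w (v j) := fun j => C.conn_trans hc (hv 0 j)
      have h2 := dl_dl (f (C.act w⁻¹ x)) (fun i : Fin (n + 2) => fl C.G w (v i))
      rw [dl] at h2
      rw [← h2]
      refine Finset.sum_congr rfl fun i _ => ?_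
      rw [if_pos fun k => hc' _]
    · refine Finset.sum_eq_zero fun i _ => ?_
      rw [if_neg, mul_zero]
      intro h
      exact hc (C.conn_trans (h 0) (hv _ 0))

end Cx

end

end MP8a95ee.Sp
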