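import Pool.Agent.Work.MP_8a95ee_gt.Sp.Defs2
import Pool.Agent.Work.MP_8a95ee_gt.Bd.B07
import Pool.Agent.Work.MP_8a95ee_gt.Bd.B05

/-!
The links as simplicial complexes on natural numbers.
-/

set_option autoImplicit false

namespace MP8a95ee.Sp

open scoped Classical

noncomputable section

namespace Cx

/-! ### orientations -/

section

variable {V X : Type} [Fintype V] {C : Cx V X}

omit [Fintype V] in
theorem range_eq {n : ℕ} (s : Fin n → V) :
    (Set.range s).toFinite.toFinset = Finset.univ.image s := by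
  ext a
  simp

theorem Oriented.edge {n : ℕ} {o : X → (Fin n → V) → ℤ} (ho : C.Oriented n o) {x : X}
    {s : Fin n → V} (h : o x s ≠ 0) (i : Fin n) : C.r (s i) x ≠ x :=
  (ho.supp x s h).1 _ (by simp)

theorem Oriented.isOrient {n : ℕ} {o : X → (Fin n → V) → ℤ} (ho : C.Oriented n o) :
    C.IsOrient n (fun x s => (o x s : ℝ)) where
  alt x s i j hij := by
    rw [ho.alt x s i j hij]
    push_cast
    rfl
  supp x s hs := by
    have h := ho.supp x s fun h => hs (by rw [h]; simp)
    rwa [range_eq] at h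
  cycle x s i := by
    have h := ho.cycle x s i
    exact_mod_cast h
  flip x s i h := by
    rw [ho.flip x s i h]
    push_cast
    rfl

end

/-! ### the Euler characteristic -/

section

variable {V X : Type} [Fintype V] [Fintype X] (C : Cx V X)

theorem card_fibre (hE : C.Embedded) {x : X} {s : Finset V} (hs : C.IsCube x s) :
    (((Finset.univ : Finset (X × Finset V)).filter fun p => C.IsCube p.1 p.2).filter fun p =>
      (p.2, p.2.powerset.image fun T => C.mv T p.1) =
        (s, s.powerset.image fun T => C.mv T x)).card = 2 ^ s.card := by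
  rw [← Finset.card_powerset]
  symm
  refine Finset.card_bij (fun T _ => (C.mv T x, s)) ?_ ?_ ?_
  · intro T hT
    rw [Finset.mem_powerset] at hT
    rw [Finset.mem_filter, Finset.mem_filter]
    refine ⟨⟨Finset.mem_univ _, hs.mv hT⟩, ?_⟩
    refine Prod.ext rfl ?_
    simp only
    ext y
    simp only [Finset.mem_image, Finset.mem_powerset]
    constructor
    · rintro ⟨A, hA, rfl⟩
      exact ⟨symmDiff A T, symmDiff_sub hA hT, (C.mv_mv hs.clq hA hT x).symm⟩
    · rintro ⟨A, hA, rfl⟩
      refine ⟨symmDiff A T, symmDiff_sub hA hT, ?_⟩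
      rw [C.mv_mv hs.clq (symmDiff_sub hA hT) hT, symmDiff_symmDiff_cancel_right]
  · intro T hT T' hT' h
    rw [Finset.mem_powerset] at hT hT'
    exact hE x T T' (hs.mono hT) (hs.mono hT') (Prod.ext_iff.1 h).1
  · rintro ⟨y, t⟩ hy
    rw [Finset.mem_filter, Finset.mem_filter] at hy
    obtain ⟨⟨-, hc⟩, h⟩ := hy
    have h1 : t = s := (Prod.ext_iff.1 h).1
    have h2 := (Prod.ext_iff.1 h).2
    simp only at h2
    subst h1
    have h3 : y ∈ t.powerset.image fun T => C.mv T y := by
      rw [Finset.mem_image]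
      exact ⟨∅, Finset.mem_powerset.2 (Finset.empty_subset _), C.mv_empty y⟩
    rw [h2, Finset.mem_image] at h3
    obtain ⟨T, hT, hTy⟩ := h3
    exact ⟨T, hT, by rw [hTy]⟩

/-- combinatorial Gauss-Bonnet formula -/
theorem eulerChar_eq (hE : C.Embedded) :
    (C.eulerChar : ℚ) = ∑ x, ∑ s ∈ Finset.univ.filter fun s => C.IsCube x s,
      (-1 / 2 : ℚ) ^ s.card := by
  have h1 : ∑ x, ∑ s ∈ Finset.univ.filter fun s => C.IsCube x s, (-1 / 2 : ℚ) ^ s.card =
      ∑ p ∈ (Finset.univ : Finset (X × Finset V)).filter fun p => C.IsCube p.1 p.2,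
        (-1 / 2 : ℚ) ^ p.2.card := by
    rw [Finset.sum_filter, Fintype.sum_prod_type]
    refine Finset.sum_congr rfl fun x _ => ?_
    rw [Finset.sum_filter]
  rw [h1]
  have h2 := Finset.sum_comp (s := (Finset.univ : Finset (X × Finset V)).filter
    fun p => C.IsCube p.1 p.2) (fun c : Finset V × Finset X => (-1 / 2 : ℚ) ^ c.1.card)
    (fun p => (p.2, p.2.powerset.image fun T => C.mv T p.1))
  simp only at h2
  rw [h2]
  unfold eulerChar
  push_cast
  unfold cubes
  refine Finset.sum_congr rfl fun c hc => ?_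
  obtain ⟨p, hp, rfl⟩ := Finset.mem_image.1 hc
  rw [Finset.mem_filter] at hp
  rw [C.card_fibre hE hp.2, nsmul_eq_mul]
  push_cast
  rw [← mul_pow]
  norm_num

end

/-! ### the link as a complex on natural numbers -/

section

variable {k : ℕ} {X : Type} (C : Cx (Fin k) X)

/-- sets of labels as sets of numbers -/
def em (T : Finset (Fin k)) : Finset ℕ := T.map Fin.valEmbedding

theorem mem_em {T : Finset (Fin k)} {a : ℕ} : a ∈ em T ↔ ∃ h : a < k, (⟨a, h⟩ : Fin k) ∈ T := by
  unfold em
  rw [Finset.mem_map]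
  constructor
  · rintro ⟨b, hb, rfl⟩
    exact ⟨b.2, hb⟩
  · rintro ⟨h, ha⟩
    exact ⟨_, ha, rfl⟩

theorem mem_em_coe {T : Finset (Fin k)} {a : Fin k} : (a : ℕ) ∈ em T ↔ a ∈ T := by
  rw [mem_em]
  exact ⟨fun ⟨_, h⟩ => h, fun h => ⟨a.2, h⟩⟩

theorem em_injective : Function.Injective (em : Finset (Fin k) → Finset ℕ) :=
  Finset.map_injective _

theorem card_em (T : Finset (Fin k)) : (em T).card = T.card := Finset.card_map _

theorem mem_link {x : X} {σ : Finset ℕ} : σ ∈ C.link x ↔ ∃ s, C.IsCube x s ∧ em s = σ := by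
  unfold link em
  rw [Finset.mem_image]
  simp

theorem em_mem_link {x : X} {s : Finset (Fin k)} : em s ∈ C.link x ↔ C.IsCube x s := by
  rw [mem_link]
  constructor
  · rintro ⟨t, ht, h⟩
    rwa [← em_injective h]
  · intro h
    exact ⟨s, h, rfl⟩

theorem em_pair (a b : Fin k) : em ({a, b} : Finset (Fin k)) = {(a : ℕ), (b : ℕ)} := by
  ext c
  rw [mem_em]
  simp only [Finset.mem_insert, Finset.mem_singleton]
  constructor
  · rintro ⟨h, h1 | h1⟩
    · left; rw [← h1]
    · right; rw [← h1]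
  · rintro (rfl | rfl)
    · exact ⟨a.2, Or.inl rfl⟩
    · exact ⟨b.2, Or.inr rfl⟩

theorem pair_mem_link {x : X} {a b : Fin k} : ({(a : ℕ), (b : ℕ)} : Finset ℕ) ∈ C.link x ↔
    C.IsCube x {a, b} := by
  rw [← em_pair, em_mem_link]

theorem lt_of_mem {x : X} {σ : Finset ℕ} (hσ : σ ∈ C.link x) {a : ℕ} (ha : a ∈ σ) : a < k := by
  obtain ⟨s, -, rfl⟩ := C.mem_link.1 hσ
  exact (mem_em.1 ha).1

theorem flag_link (x : X) : FlagC (C.link x) := by
  intro σ
  constructor
  · intro hσ a ha b hb
    obtain ⟨s, hs, rfl⟩ := C.mem_link.1 hσ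
    obtain ⟨ha1, ha2⟩ := mem_em.1 ha
    obtain ⟨hb1, hb2⟩ := mem_em.1 hb
    have h := (C.pair_mem_link (x := x) (a := ⟨a, ha1⟩) (b := ⟨b, hb1⟩)).2 (hs.mono (by
      intro c hc
      rw [Finset.mem_insert, Finset.mem_singleton] at hc
      rcases hc with rfl | rfl
      · exact ha2
      · exact hb2))
    exact h
  · intro h
    have hlt : ∀ a ∈ σ, a < k := fun a ha => C.lt_of_mem (h a ha a ha) (Finset.mem_insert_self _ _)
    have hem : em (Finset.univ.filter fun a : Fin k => (a : ℕ) ∈ σ) = σ := by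
      ext a
      rw [mem_em]
      constructor
      · rintro ⟨h1, h2⟩
        exact (Finset.mem_filter.1 h2).2
      · intro ha
        exact ⟨hlt a ha, Finset.mem_filter.2 ⟨Finset.mem_univ _, ha⟩⟩
    rw [← hem, em_mem_link]
    have hpair : ∀ a ∈ Finset.univ.filter fun a : Fin k => (a : ℕ) ∈ σ,
        ∀ b ∈ Finset.univ.filter fun a : Fin k => (a : ℕ) ∈ σ, C.IsCube x {a, b} := by
      intro a ha b hb
      rw [← C.pair_mem_link]
      exact h _ (Finset.mem_filter.1 ha).2 _ (Finset.mem_filter.1 hb).2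
    refine ⟨fun a ha => (hpair a ha a ha).1 a (by simp), fun a ha b hb hab => ?_⟩
    exact (hpair a ha b hb).2 a (by simp) b (by simp) hab

theorem mem_verts_link {x : X} {a : ℕ} :
    a ∈ verts (C.link x) ↔ ∃ h : a < k, C.r ⟨a, h⟩ x ≠ x := by
  unfold verts
  rw [Finset.mem_biUnion]
  constructor
  · rintro ⟨σ, hσ, ha⟩
    obtain ⟨s, hs, rfl⟩ := C.mem_link.1 hσ
    obtain ⟨h1, h2⟩ := mem_em.1 ha
    exact ⟨h1, hs.1 _ h2⟩
  · rintro ⟨h1, h2⟩
    refine ⟨em {⟨a, h1⟩}, C.em_mem_link.2 ⟨?_, ?_⟩, ?_⟩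
    · intro b hb
      rw [Finset.mem_singleton] at hb
      rwa [hb]
    · intro b hb c hc hbc
      rw [Finset.mem_singleton] at hb hc
      exact absurd (hb.trans hc.symm) hbc
    · simp [em]

/-- the orientation as a function on tuples of numbers -/
def oN {n : ℕ} (o : (Fin n → Fin k) → ℤ) (s : Fin n → ℕ) : ℤ :=
  if h : ∀ i, s i < k then o fun i => ⟨s i, h i⟩ else 0

theorem oN_coe {n : ℕ} (o : (Fin n → Fin k) → ℤ) (s : Fin n → Fin k) :
    oN o (fun i => (s i : ℕ)) = o s := by
  unfold oN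
  rw [dif_pos fun i => (s i).2]

theorem image_eq_em {n : ℕ} (s : Fin n → ℕ) (h : ∀ i, s i < k) :
    Finset.univ.image s = em ((Set.range fun i => (⟨s i, h i⟩ : Fin k)).toFinite.toFinset) := by
  ext a
  rw [mem_em]
  simp only [Finset.mem_image, Finset.mem_univ, true_and, Set.Finite.mem_toFinset, Set.mem_range]
  constructor
  · rintro ⟨i, rfl⟩
    exact ⟨h i, i, rfl⟩
  · rintro ⟨ha, i, hi⟩
    exact ⟨i, congrArg Fin.val hi⟩

variable {C}

theorem Oriented.isOrient_link {n : ℕ} {o : X → (Fin n → Fin k) → ℤ} (ho : C.Oriented n o)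
    (x : X) : MP8a95ee.IsOrient (C.link x) n (oN (o x)) := by
  refine ⟨?_, ?_, ?_, ?_⟩
  · intro s i j hij
    unfold oN
    by_cases h : ∀ i, s i < k
    · have h' : ∀ l, (s ∘ Equiv.swap i j) l < k := fun l => h _
      rw [dif_pos h, dif_pos h', ← ho.alt x _ i j hij]
      rfl
    · have h' : ¬ ∀ l, (s ∘ Equiv.swap i j) l < k := by
        intro h'
        apply h
        intro l
        have := h' (Equiv.swap i j l)
        rwa [Function.comp, Equiv.swap_apply_self] at this
      rw [dif_neg h, dif_neg h', neg_zero]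
  · intro s hs
    unfold oN at hs
    by_cases h : ∀ i, s i < k
    · rw [dif_pos h] at hs
      rw [image_eq_em s h, em_mem_link]
      exact ho.supp x _ hs
    · rw [dif_neg h] at hs
      exact absurd rfl hs
  · intro s hs hL
    have h : ∀ i, s i < k := fun i =>
      C.lt_of_mem hL (Finset.mem_image_of_mem _ (Finset.mem_univ i))
    unfold oN
    rw [dif_pos h]
    refine ho.full x _ ?_ ?_
    · intro i j hij
      exact hs (congrArg Fin.val hij)
    · rw [image_eq_em s h, em_mem_link] at hL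
      exact hL
  · intro s i
    -- the other entries
    by_cases h : ∀ j, j ≠ i → s j < k
    · by_cases hk : Nonempty (Fin k)
      · obtain ⟨a0⟩ := hk
        set s' : Fin n → Fin k := fun j => if hj : j = i then a0 else ⟨s j, h j hj⟩ with hs'
        have h1 : ∀ a : Fin k, oN (o x) (Function.update s i (a : ℕ)) =
            o x (Function.update s' i a) := by
          intro a
          rw [← oN_coe (o x) (Function.update s' i a)]
          congr 1
          funext j
          by_cases hj : j = i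
          · subst hj; simp
          · rw [Function.update_of_ne hj, Function.update_of_ne hj, hs']
            simp [hj]
        have h2 := ho.cycle x s' i
        rw [← h2]
        have h3 : ∑ a : Fin k, o x (Function.update s' i a) =
            ∑ a ∈ Finset.univ.filter fun a : Fin k => C.r a x ≠ x, o x (Function.update s' i a) := by
          rw [Finset.sum_filter]
          refine Finset.sum_congr rfl fun a _ => ?_
          by_cases ha : C.r a x = x
          · rw [if_neg (not_not.2 ha)]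
            by_contra hne
            have h4 := ho.edge hne i
            rw [Function.update_self] at h4
            exact h4 ha
          · rw [if_pos ha]
        rw [h3]
        refine (Finset.sum_bij (fun (a : Fin k) _ => (a : ℕ)) ?_ ?_ ?_ ?_).symm
        · intro a ha
          rw [mem_verts_link]
          exact ⟨a.2, (Finset.mem_filter.1 ha).2⟩
        · intro a _ b _ hab
          exact Fin.ext hab
        · intro a ha
          obtain ⟨h5, h6⟩ := C.mem_verts_link.1 ha
          exact ⟨⟨a, h5⟩, Finset.mem_filter.2 ⟨Finset.mem_univ _, h6⟩, rfl⟩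
        · intro a _
          exact (h1 a).symm
      · refine Finset.sum_eq_zero fun a ha => ?_
        obtain ⟨h5, -⟩ := C.mem_verts_link.1 ha
        exact absurd ⟨⟨a, h5⟩⟩ hk
    · push Not at h
      obtain ⟨j, hj, hjk⟩ := h
      refine Finset.sum_eq_zero fun a _ => ?_
      unfold oN
      rw [dif_neg]
      intro h
      have := h j
      rw [Function.update_of_ne hj] at this
      omega

/-- tuples in `K''` -/
theorem kg_of {x : X} {j : ℕ} (T : Fin j → Finset (Fin k)) (hc : ∀ i, C.IsCube x (T i))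
    (hne : ∀ i, (T i).Nonempty) (h : RACG.InK T ∨ RACG.InF C.G T) :
    RA.KG (C.link x) (fun _ => True) (fun i => em (T i)) := by
  refine ⟨fun i => ⟨C.em_mem_link.2 (hc i), ?_⟩, ?_⟩
  · obtain ⟨a, ha⟩ := hne i
    exact ⟨a, mem_em_coe.2 ha⟩
  by_cases hK : RACG.InK T
  · left
    obtain ⟨a, ha⟩ := hK
    exact ⟨a, fun i => mem_em_coe.2 (ha i)⟩
  right
  rcases h with h | h
  · exact absurd h hK
  obtain ⟨P, Q, hP, hQ, hPQ, hT0⟩ := h
  have hT : ∀ i, ∃ τ : Finset (Fin k), (∀ a ∈ τ, (∀ b ∈ P, C.G.Adj a b) ∧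
      ∀ b ∈ Q, C.G.Adj a b) ∧
      ((∀ x, x ∈ T i ↔ x ∈ P ∨ x ∈ τ) ∨ (∀ x, x ∈ T i ↔ x ∈ Q ∨ x ∈ τ)) := by
    intro i
    obtain ⟨τ, hτ, h3⟩ := hT0 i
    refine ⟨τ, hτ, ?_⟩
    rcases h3 with h3 | h3
    · left
      intro x
      rw [h3]
      exact @Finset.mem_union _ (fun a b => Classical.propDecidable (a = b)) _ _ _
    · right
      intro x
      rw [h3]
      exact @Finset.mem_union _ (fun a b => Classical.propDecidable (a = b)) _ _ _
  clear hT0
  obtain ⟨p0, hp0⟩ := hP
  obtain ⟨q0, hq0⟩ := hQ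
  -- both types occur
  have h1 : ∃ i, P ⊆ T i := by
    by_contra hcon
    push Not at hcon
    apply hK
    refine ⟨q0, fun i => ?_⟩
    obtain ⟨τ, -, h2 | h2⟩ := hT i
    · exact absurd (fun x hx => (h2 x).2 (Or.inl hx)) (hcon i)
    · exact (h2 _).2 (Or.inl hq0)
  have h2 : ∃ i, Q ⊆ T i := by
    by_contra hcon
    push Not at hcon
    apply hK
    refine ⟨p0, fun i => ?_⟩
    obtain ⟨τ, -, h3 | h3⟩ := hT i
    · exact (h3 _).2 (Or.inl hp0)
    · exact absurd (fun x hx => (h3 x).2 (Or.inl hx)) (hcon i)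
  obtain ⟨i1, hi1⟩ := h1
  obtain ⟨i2, hi2⟩ := h2
  have hPc : C.IsCube x P := (hc i1).mono hi1
  have hQc : C.IsCube x Q := (hc i2).mono hi2
  have hdis : Disjoint (em P) (em Q) := by
    rw [Finset.disjoint_left] at hPQ ⊢
    intro x hx hy
    obtain ⟨hx1, hx2⟩ := mem_em.1 hx
    obtain ⟨hy1, hy2⟩ := mem_em.1 hy
    exact hPQ hx2 hy2
  refine ⟨(em P, em Q), ⟨C.em_mem_link.2 hPc, C.em_mem_link.2 hQc,
    ⟨p0, mem_em_coe.2 hp0⟩, ⟨q0, mem_em_coe.2 hq0⟩, hdis⟩, trivial, ?_⟩
  intro i
  obtain ⟨τ, hτ, h3⟩ := hT i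
  have hτT : τ ⊆ T i := by
    intro a ha
    rcases h3 with h3 | h3
    · exact (h3 a).2 (Or.inr ha)
    · exact (h3 a).2 (Or.inr ha)
  have hpair : ∀ a b : Fin k, C.r a x ≠ x → C.r b x ≠ x → C.G.Adj a b →
      RA.Adj (C.link x) a b := by
    intro a b ha hb hab
    refine ⟨fun h => hab.ne (Fin.ext h), C.pair_mem_link.2 ⟨?_, ?_⟩⟩
    · intro c hc'
      rw [Finset.mem_insert, Finset.mem_singleton] at hc'
      rcases hc' with rfl | rfl
      · exact ha
      · exact hb
    · intro c hc' d hd hcd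
      rw [Finset.mem_insert, Finset.mem_singleton] at hc' hd
      rcases hc' with rfl | rfl <;> rcases hd with rfl | rfl
      · exact absurd rfl hcd
      · exact hab
      · exact hab.symm
      · exact absurd rfl hcd
  have hadj : ∀ t ∈ em τ, ∀ c ∈ em P ∪ em Q, RA.Adj (C.link x) t c := by
    intro t ht c hcc
    obtain ⟨ht1, ht2⟩ := mem_em.1 ht
    rcases Finset.mem_union.1 hcc with hc1 | hc1
    · obtain ⟨hc2, hc3⟩ := mem_em.1 hc1
      exact hpair ⟨t, ht1⟩ ⟨c, hc2⟩ ((hc i).1 _ (hτT ht2)) (hPc.1 _ hc3) ((hτ _ ht2).1 _ hc3)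
    · obtain ⟨hc2, hc3⟩ := mem_em.1 hc1
      exact hpair ⟨t, ht1⟩ ⟨c, hc2⟩ ((hc i).1 _ (hτT ht2)) (hQc.1 _ hc3) ((hτ _ ht2).2 _ hc3)
  have hmem : ∀ t ∈ em (T i), t ∉ em P ∪ em Q → t ∈ em τ := by
    intro t ht htn
    rw [Finset.mem_union, not_or] at htn
    obtain ⟨ht1, ht2⟩ := mem_em.1 ht
    rw [mem_em, mem_em] at htn
    rw [mem_em]
    rcases h3 with h3 | h3
    · exact ⟨ht1, ((h3 _).1 ht2).resolve_left fun h => htn.1 ⟨ht1, h⟩⟩
    · exact ⟨ht1, ((h3 _).1 ht2).resolve_left fun h => htn.2 ⟨ht1, h⟩⟩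
  refine ⟨?_, fun t ht htn => hadj t (hmem t ht htn)⟩
  rcases h3 with h3 | h3
  · left
    constructor
    · intro x hx
      obtain ⟨hx1, hx2⟩ := mem_em.1 hx
      exact mem_em.2 ⟨hx1, (h3 _).2 (Or.inl hx2)⟩
    · rw [Finset.disjoint_left]
      intro x hx hy
      obtain ⟨hx1, hx2⟩ := mem_em.1 hx
      obtain ⟨hy1, hy2⟩ := mem_em.1 hy
      rcases (h3 _).1 hy2 with h | h
      · exact Finset.disjoint_left.1 hPQ h hx2
      · exact ((hτ _ h).2 _ hx2).ne rfl
  · right
    constructor
    · intro x hx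
      obtain ⟨hx1, hx2⟩ := mem_em.1 hx
      exact mem_em.2 ⟨hx1, (h3 _).2 (Or.inl hx2)⟩
    · rw [Finset.disjoint_left]
      intro x hx hy
      obtain ⟨hx1, hx2⟩ := mem_em.1 hx
      obtain ⟨hy1, hy2⟩ := mem_em.1 hy
      rcases (h3 _).1 hy2 with h | h
      · exact Finset.disjoint_left.1 hPQ hx2 h
      · exact ((hτ _ h).1 _ hx2).ne rfl

theorem dl_em {j : ℕ} (f : (Fin j → Finset ℕ) → ℝ) (T : Fin (j + 1) → Finset (Fin k)) :
    PartOne.dl (fun T : Fin j → Finset (Fin k) => f fun i => em (T i)) T =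
      RA.dl f (fun i => em (T i)) := by
  unfold PartOne.dl RA.dl
  refine Finset.sum_congr rfl fun i _ => ?_
  rw [smul_eq_mul]

/-- the two descriptions of `f(ζ)` -/
theorem zv_eq {m : ℕ} {o : X → (Fin (m + 1) → Fin k) → ℤ} (ho : C.Oriented (m + 1) o) (x : X)
    (f : (Fin (m + 1) → Finset ℕ) → ℝ) :
    PartOne.zv (fun s => (o x s : ℝ))
      (fun T : Fin (m + 1) → Finset (Fin k) => f fun i => em (T i)) =
      Finsupp.linearCombination ℝ f (RA.zeta (C.link x) (oN (o x))) := by
  have h0 : ∀ φ : (Fin (m + 1) → ℕ) → ℝ,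
      (∀ s, oN (o x) s = 0 → φ s = 0) →
      ∑ s ∈ Fintype.piFinset (fun _ : Fin (m + 1) => verts (C.link x)), φ s =
        ∑ t : Fin (m + 1) → Fin k, φ fun i => t i := by
    intro φ hφ
    have h1 : ∑ t : Fin (m + 1) → Fin k, φ (fun i => t i) =
        ∑ t ∈ Finset.univ.filter fun t : Fin (m + 1) → Fin k => ∀ i, C.r (t i) x ≠ x,
          φ (fun i => t i) := by
      rw [Finset.sum_filter]
      refine Finset.sum_congr rfl fun t _ => ?_
      by_cases ht : ∀ i, C.r (t i) x ≠ x
      · rw [if_pos ht]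
      · rw [if_neg ht]
        apply hφ
        rw [oN_coe]
        by_contra hne
        apply ht
        exact ho.edge hne
    rw [h1]
    refine (Finset.sum_bij (fun (t : Fin (m + 1) → Fin k) _ => fun i => (t i : ℕ)) ?_ ?_ ?_ ?_).symm
    · intro t ht
      rw [Fintype.mem_piFinset]
      intro i
      rw [mem_verts_link]
      exact ⟨(t i).2, (Finset.mem_filter.1 ht).2 i⟩
    · intro t _ t' _ h
      funext i
      exact Fin.ext (congrFun h i)
    · intro s hs
      rw [Fintype.mem_piFinset] at hs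
      choose h5 h6 using fun i => C.mem_verts_link.1 (hs i)
      exact ⟨fun i => ⟨s i, h5 i⟩, Finset.mem_filter.2 ⟨Finset.mem_univ _, h6⟩, rfl⟩
    · intro t _
      rfl
  unfold RA.zeta PartOne.zv
  rw [map_sum, h0]
  · refine Finset.sum_congr rfl fun s _ => ?_
    rw [oN_coe]
    by_cases hos : o x s = 0
    · rw [map_sum]
      simp [hos]
    have hinj' : Function.Injective s := by
      have := ho.isOrient.inj (x := x) (s := s) (by
        intro h
        exact hos (by exact_mod_cast h))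
      exact this
    have hinj : Function.Injective fun i => (s i : ℕ) := Fin.val_injective.comp hinj'
    rw [map_sum, Finset.mul_sum]
    have h1 : (Finset.univ.image fun i : Fin m => (s i.castSucc : ℕ)) =
        (Finset.univ.erase (Fin.last m)).image fun i => (s i : ℕ) := by
      ext x
      simp only [Finset.mem_image, Finset.mem_univ, true_and, Finset.mem_erase, and_true]
      constructor
      · rintro ⟨i, rfl⟩
        exact ⟨i.castSucc, Fin.castSucc_ne_last i, rfl⟩
      · rintro ⟨i, hi, rfl⟩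
        obtain ⟨j, rfl⟩ := Fin.exists_castSucc_eq.2 hi
        exact ⟨j, rfl⟩
    rw [h1, Finset.powerset_image,
      Finset.sum_image fun a _ b _ hab => Finset.image_injective hinj hab]
    refine Finset.sum_congr rfl fun b hb => ?_
    rw [Finsupp.linearCombination_single, smul_eq_mul, Finset.card_image_of_injective _ hinj,
      mul_assoc]
    congr 3
    refine congrArg f ?_
    funext j
    unfold RA.zt
    have h2 : (Finset.univ.filter fun i : Fin m => (i : ℕ) < (j : ℕ)).image
        (fun i => (s i.castSucc : ℕ)) = (PartOne.pre (m + 1) j).image fun i => (s i : ℕ) := by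
      ext x
      simp only [Finset.mem_image, Finset.mem_filter, Finset.mem_univ, true_and, PartOne.mem_pre]
      constructor
      · rintro ⟨i, hi, rfl⟩
        exact ⟨i.castSucc, by simpa using hi, rfl⟩
      · rintro ⟨i, hi, rfl⟩
        have hk := j.2
        have hil : i ≠ Fin.last m := by
          rintro rfl
          rw [Fin.val_last] at hi
          omega
        obtain ⟨l, rfl⟩ := Fin.exists_castSucc_eq.2 hil
        exact ⟨l, by simpa using hi, rfl⟩
    rw [h2, ← Finset.image_symmDiff _ _ hinj]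
    unfold em
    rw [Finset.map_eq_image, Finset.image_insert, Finset.image_image]
    rfl
  · intro s hs
    rw [hs, map_sum]
    simp

end

/-- if the norm of the fundamental class vanishes, then `ζ` bounds in every link -/
theorem bounds {k : ℕ} {X : Type} [Fintype X] {C : Cx (Fin k) X} (hE : C.Embedded) {m : ℕ}
    {o : X → (Fin (m + 1) → Fin k) → ℤ} (ho : C.Oriented (m + 1) o)
    (hvol : ∀ ε : ℝ, 0 < ε → ∃ b : SChain C.space (m + 2), l1 (C.fundCycle o + bd b) < ε)
    (x : X) : RA.Bounds (C.link x) (oN (o x)) (RA.KG (C.link x) fun _ => True) := by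
  refine RA.P13.duality (C.link x) m (oN (o x)) fun f hfK => ?_
  rw [← zv_eq ho x f]
  have key := zv_eq_zero hE ho.isOrient hvol x (fun T => f fun i => em (T i))
    (fun T h1 h2 h3 => by
      rw [dl_em]
      exact hfK _ (kg_of T h1 h2 h3))
  refine Eq.trans ?_ key
  congr

end Cx

end

end MP8a95ee.Sp
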