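import Pool.Agent.Work.MP_8a95ee_gt.Sp.Defs
import Pool.Agent.Work.MP_8a95ee_gt.RACG3

/-!
The action of the right-angled Coxeter group on the vertices; products over sets of pairwise
adjacent labels.
-/

set_option autoImplicit false

namespace MP8a95ee.Sp

open MP8a95ee.RACG

open scoped Classical

noncomputable section

/-! ### products of commuting generators -/

section wT

variable {V : Type} (G : SimpleGraph V)

/-- pairwise adjacent -/
def Clq (s : Finset V) : Prop := ∀ a ∈ s, ∀ b ∈ s, a ≠ b → G.Adj a b

/-- the product of the generators in `T` -/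
def wT (T : Finset V) : W G := (T.toList.map (gen G)).prod

theorem Clq.mono {G : SimpleGraph V} {s t : Finset V} (hs : Clq G s) (h : t ⊆ s) : Clq G t :=
  fun a ha b hb => hs a (h ha) b (h hb)

theorem wT_empty : wT G ∅ = 1 := by simp [wT]

theorem wT_singleton (a : V) : wT G {a} = gen G a := by simp [wT]

theorem gen_comm' {σ : Finset V} (hσ : Clq G σ) {a b : V} (ha : a ∈ σ) (hb : b ∈ σ) :
    gen G a * gen G b = gen G b * gen G a := by
  by_cases h : a = b
  · rw [h]
  · exact gen_comm G (hσ a ha b hb h)

theorem wT_insert {σ : Finset V} (hσ : Clq G σ) {a : V} {A : Finset V} (ha : a ∈ σ)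
    (hA : A ⊆ σ) (haA : a ∉ A) : wT G (insert a A) = gen G a * wT G A := by
  have hperm := Finset.toList_insert haA
  have h2 : List.Perm ((insert a A).toList.map (gen G)) (gen G a :: A.toList.map (gen G)) := by
    have := hperm.map (gen G)
    simpa using this
  rw [wT, wT, h2.prod_eq', List.prod_cons]
  rw [List.pairwise_map]
  apply List.Pairwise.imp_of_mem (R := fun _ _ => True) _ (List.pairwise_of_forall fun _ _ => trivial)
  intro x y hx hy _
  have hsub : ∀ x, x ∈ (insert a A).toList → x ∈ σ := by
    intro x hx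
    rw [Finset.mem_toList, Finset.mem_insert] at hx
    rcases hx with rfl | hx
    · exact ha
    · exact hA hx
  exact gen_comm' G hσ (hsub x hx) (hsub y hy)

theorem wT_mul {σ : Finset V} (hσ : Clq G σ) {A B : Finset V} (hA : A ⊆ σ) (hB : B ⊆ σ) :
    wT G A * wT G B = wT G (symmDiff A B) := by
  induction A using Finset.induction_on with
  | empty => rw [wT_empty, one_mul, ← Finset.bot_eq_empty, bot_symmDiff]
  | insert a A ha ih =>
    have haσ : a ∈ σ := hA (Finset.mem_insert_self _ _)
    have hAσ : A ⊆ σ := (Finset.subset_insert _ _).trans hA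
    rw [wT_insert G hσ haσ hAσ ha, mul_assoc, ih hAσ]
    have hS : symmDiff A B ⊆ σ := by
      intro x hx
      rw [Finset.mem_symmDiff] at hx
      rcases hx with hx | hx
      · exact hAσ hx.1
      · exact hB hx.1
    by_cases hab : a ∈ B
    · have h1 : symmDiff A B = insert a (symmDiff (insert a A) B) := by
        ext x
        simp only [Finset.mem_symmDiff, Finset.mem_insert]
        by_cases hx : x = a
        · subst hx; simp [ha, hab]
        · simp [hx]
      have h2 : a ∉ symmDiff (insert a A) B := by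
        simp [Finset.mem_symmDiff, hab]
      have h3 : symmDiff (insert a A) B ⊆ σ := by
        intro x hx
        apply hS
        rw [h1]
        exact Finset.mem_insert_of_mem hx
      rw [h1, wT_insert G hσ haσ h3 h2, ← mul_assoc, gen_mul_self, one_mul]
    · have h1 : symmDiff (insert a A) B = insert a (symmDiff A B) := by
        ext x
        simp only [Finset.mem_symmDiff, Finset.mem_insert]
        by_cases hx : x = a
        · subst hx; simp [ha, hab]
        · simp [hx]
      have h2 : a ∉ symmDiff A B := by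
        simp [Finset.mem_symmDiff, ha, hab]
      rw [h1, wT_insert G hσ haσ hS h2]

theorem wT_sq {σ : Finset V} (hσ : Clq G σ) : wT G σ * wT G σ = 1 := by
  rw [wT_mul G hσ (Finset.Subset.refl _) (Finset.Subset.refl _), symmDiff_self,
    Finset.bot_eq_empty, wT_empty]

theorem wT_inv {σ : Finset V} (hσ : Clq G σ) : (wT G σ)⁻¹ = wT G σ :=
  inv_eq_of_mul_eq_one_left (wT_sq G hσ)

/-- the walls separating `1` and a product of commuting generators -/
theorem S_wT {σ : Finset V} (hσ : Clq G σ) (t : W G) :
    S G (wT G σ) t = true ↔ ∃ a ∈ σ, t = gen G a := by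
  induction σ using Finset.induction_on generalizing t with
  | empty => simp [wT_empty, S_one]
  | insert a A ha ih =>
    have hA : Clq G A := hσ.mono (Finset.subset_insert _ _)
    have h1 : wT G (insert a A) = wT G A * gen G a := by
      have h2 := wT_mul G hσ (A := A) (B := {a}) (Finset.subset_insert _ _)
        (by simp)
      rw [wT_singleton] at h2
      rw [h2]
      congr 1
      ext x
      simp only [Finset.mem_symmDiff, Finset.mem_insert, Finset.mem_singleton]
      by_cases hx : x = a
      · subst hx; simp [ha]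
      · simp [hx]
    have h3 : wT G A * gen G a * (wT G A)⁻¹ = gen G a := by
      have h4 : wT G A * gen G a = gen G a * wT G A := by
        rw [← h1, wT_insert G hσ (Finset.mem_insert_self _ _) (Finset.subset_insert _ _) ha]
      rw [h4, mul_inv_cancel_right]
    rw [h1, S_mul_gen, h3]
    have ih' := ih hA t
    by_cases hta : t = gen G a
    · have h5 : S G (wT G A) t = false := by
        rw [Bool.eq_false_iff]
        intro h
        obtain ⟨b, hb, hb'⟩ := ih'.1 h
        rw [hta] at hb'
        have := label_unique G (p := 1) (q := 1) (a := a) (b := b) (by simpa using hb')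
        subst this
        exact ha hb
      rw [h5, hta]
      simp
    · simp only [hta, decide_false, Bool.xor_false, ih', Finset.mem_insert, exists_eq_or_imp,
        false_or]

theorem gen_injective : Function.Injective (gen G) := by
  intro a b h
  exact label_unique G (p := 1) (q := 1) (by simpa using h)

theorem sep_wT {σ : Finset V} (hσ : Clq G σ) (t : W G) :
    Sep G 1 (wT G σ) t ↔ ∃ a ∈ σ, t = gen G a := by
  rw [sep_one, S_wT G hσ]

theorem sep_one_wT_gen {σ : Finset V} (hσ : Clq G σ) (a : V) :
    Sep G 1 (wT G σ) (gen G a) ↔ a ∈ σ := by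
  rw [sep_wT G hσ]
  constructor
  · rintro ⟨b, hb, h⟩
    rwa [gen_injective G h]
  · intro h
    exact ⟨a, h, rfl⟩

theorem wT_injOn {σ : Finset V} (hσ : Clq G σ) {A B : Finset V} (hA : A ⊆ σ) (hB : B ⊆ σ)
    (h : wT G A = wT G B) : A = B := by
  ext a
  rw [← sep_one_wT_gen G (hσ.mono hA), h, sep_one_wT_gen G (hσ.mono hB)]

end wT

/-- first letters inside a cube -/
theorem fl_wT {V : Type} [Fintype V] (G : SimpleGraph V) {σ : Finset V} (hσ : Clq G σ)
    {A B : Finset V} (hA : A ⊆ σ) (hB : B ⊆ σ) :
    fl G (wT G A) (wT G B) = symmDiff A B := by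
  have h1 : fl G (wT G A) (wT G B) = fl G 1 (wT G (symmDiff A B)) := by
    have h := fl_mul G (wT G A) (wT G A) (wT G B)
    rw [wT_sq G (hσ.mono hA), wT_mul G hσ hA hB] at h
    exact h.symm
  rw [h1]
  have hS : symmDiff A B ⊆ σ := by
    intro x hx
    rw [Finset.mem_symmDiff] at hx
    rcases hx with hx | hx
    · exact hA hx.1
    · exact hB hx.1
  ext a
  rw [mem_fl]
  simp only [one_mul, inv_one, mul_one]
  exact sep_one_wT_gen G (hσ.mono hS) a

/-- a chamber outside of a cube is separated from the cube by a wall next to it -/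
theorem outside_cube {V : Type} [Fintype V] (G : SimpleGraph V) {σ : Finset V} (hσ : Clq G σ)
    {w : W G} (hw : ∀ B, B ⊆ σ → w ≠ wT G B) :
    ∃ a, ∀ B, B ⊆ σ → a ∈ fl G w (wT G B) := by
  have hex : ∃ n, ∃ B, B ⊆ σ ∧ dist G (wT G B) w = n := ⟨_, ∅, Finset.empty_subset _, rfl⟩
  obtain ⟨B, hB, hBn⟩ := Nat.find_spec hex
  obtain ⟨a, ha, hlt⟩ := first_step G (hw B hB).symm
  have haσ : a ∉ σ := by
    intro haσ
    rw [hBn] at hlt
    refine Nat.find_min hex hlt ⟨symmDiff B {a}, ?_, ?_⟩
    · intro x hx
      rw [Finset.mem_symmDiff, Finset.mem_singleton] at hx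
      rcases hx with hx | hx
      · exact hB hx.1
      · rw [hx.1]; exact haσ
    · rw [← wT_mul G hσ hB (by simpa using haσ), wT_singleton]
  have key : ∀ B' : {B' : Finset V // B' ⊆ σ}, Sep G w (wT G B'.1) (wT G B * gen G a * (wT G B)⁻¹) := by
    rintro ⟨B', hB'⟩
    have h1 : ¬ Sep G (wT G B) (wT G B') (wT G B * gen G a * (wT G B)⁻¹) := by
      intro h
      have h2 := (mem_fl G).2 h
      rw [fl_wT G hσ hB hB', Finset.mem_symmDiff] at h2
      rcases h2 with h2 | h2
      · exact haσ (hB h2.1)
      · exact haσ (hB' h2.1)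
    have h3 := sep_trans_iff G (wT G B) (wT G B') w (wT G B * gen G a * (wT G B)⁻¹)
    rw [sep_comm] 
    tauto
  haveI : Nonempty {B' : Finset V // B' ⊆ σ} := ⟨⟨∅, Finset.empty_subset _⟩⟩
  obtain ⟨b, hb⟩ := hull G key
  exact ⟨b, fun B' hB' => (mem_fl G).2 (hb ⟨B', hB'⟩)⟩

/-! ### the action on the vertices -/

namespace Cx

variable {V X : Type} (C : Cx V X)

/-- the permutation given by a label -/
def perm (a : V) : Equiv.Perm X := Function.Involutive.toPerm (C.r a) (C.invol a)

theorem perm_apply (a : V) (x : X) : C.perm a x = C.r a x := rfl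

/-- the action of the Coxeter group -/
def act : W C.G →* Equiv.Perm X :=
  lift C.G C.perm (fun a => by ext x; exact C.invol a x)
    (fun a b h => by ext x; exact C.comm a b h x)

theorem act_gen (a : V) (x : X) : C.act (gen C.G a) x = C.r a x := by
  unfold act
  rw [lift_gen]
  rfl

theorem act_wT (T : Finset V) (x : X) : C.act (wT C.G T) x = C.mv T x := by
  unfold wT mv
  induction T.toList with
  | nil => simp
  | cons a l ih =>
    rw [List.map_cons, List.prod_cons, map_mul, Equiv.Perm.mul_apply, ih, act_gen, List.foldr_cons]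

theorem IsCube.clq {C : Cx V X} {x : X} {s : Finset V} (h : C.IsCube x s) : Clq C.G s := h.2

theorem IsCube.mono {C : Cx V X} {x : X} {s t : Finset V} (h : C.IsCube x s) (hts : t ⊆ s) :
    C.IsCube x t := ⟨fun a ha => h.1 a (hts ha), fun a ha b hb => h.2 a (hts ha) b (hts hb)⟩

theorem isCube_empty (x : X) : C.IsCube x ∅ := ⟨by simp, by simp⟩

theorem mv_empty (x : X) : C.mv ∅ x = x := by simp [mv]

theorem mv_singleton (a : V) (x : X) : C.mv {a} x = C.r a x := by simp [mv]

theorem mv_mv {σ : Finset V} (hσ : Clq C.G σ) {A B : Finset V} (hA : A ⊆ σ) (hB : B ⊆ σ) (x : X) :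
    C.mv A (C.mv B x) = C.mv (symmDiff A B) x := by
  rw [← act_wT, ← act_wT, ← act_wT, ← wT_mul C.G hσ hA hB, map_mul, Equiv.Perm.mul_apply]

theorem mv_insert {σ : Finset V} (hσ : Clq C.G σ) {a : V} {A : Finset V} (ha : a ∈ σ) (hA : A ⊆ σ)
    (haA : a ∉ A) (x : X) : C.mv (insert a A) x = C.mv A (C.r a x) := by
  rw [← mv_singleton, mv_mv C hσ hA (by simpa using ha)]
  congr 1
  ext y
  simp only [Finset.mem_symmDiff, Finset.mem_insert, Finset.mem_singleton]
  by_cases hy : y = a
  · subst hy; simp [haA]
  · simp [hy]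

theorem IsCube.r {C : Cx V X} {x : X} {s : Finset V} (h : C.IsCube x s) {b : V} (hb : b ∈ s) :
    C.IsCube (C.r b x) s := by
  refine ⟨fun a ha hax => ?_, h.2⟩
  by_cases hab : a = b
  · subst hab
    rw [C.invol] at hax
    exact h.1 a ha hax.symm
  · rw [C.comm a b (h.2 a ha b hb hab)] at hax
    have h2 := congrArg (C.r b) hax
    rw [C.invol, C.invol] at h2
    exact h.1 a ha h2

theorem IsCube.mv {C : Cx V X} {x : X} {s : Finset V} (h : C.IsCube x s) {A : Finset V}
    (hA : A ⊆ s) : C.IsCube (C.mv A x) s := by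
  induction A using Finset.induction_on generalizing x with
  | empty => rw [mv_empty]; exact h
  | insert a A ha ih =>
    have has : a ∈ s := hA (Finset.mem_insert_self _ _)
    have hAs : A ⊆ s := (Finset.subset_insert _ _).trans hA
    rw [mv_insert C h.clq has hAs ha]
    exact ih (h.r has) hAs

theorem mv_invol {x : X} {A : Finset V} (h : Clq C.G A) : C.mv A (C.mv A x) = x := by
  rw [mv_mv C h (Finset.Subset.refl _) (Finset.Subset.refl _), symmDiff_self,
    Finset.bot_eq_empty, mv_empty]

end Cx

end

end MP8a95ee.Sp
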