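import Pool.Agent.Work.MP_8a95ee_gt.B2

/-!
The bounded cochain attached to flat transition data and a bounded cocycle which depends on a
position (a point of a `G`-set).
-/

set_option autoImplicit false

namespace MP8a95ee.Sp

/-- bounded homogeneous cocycle of degree `n` on `G` with a position in the `G`-set `X`; the cocycle
condition is only required for tuples which are connected with respect to the relation `R` -/
structure XCocycle (G X : Type) [Group G] (act : G →* Equiv.Perm X) (R : X → G → G → Prop)
    (n : ℕ) where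
  F : X → (Fin (n + 1) → G) → ℝ
  C : ℝ
  bound : ∀ x v, |F x v| ≤ C
  equivar : ∀ (h : G) (x : X) (v : Fin (n + 1) → G), F (act h x) (fun i => h * v i) = F x v
  cocycle : ∀ (x : X) (v : Fin (n + 2) → G), (∀ i j, R x (v i) (v j)) →
    ∑ i : Fin (n + 2), (-1 : ℝ) ^ (i : ℕ) * F x (fun k => v (i.succAbove k)) = 0

variable {M G X : Type} [TopologicalSpace M] [Group G]

/-- compatibility of the transition elements with the positions and the relation -/
structure Compat (D : FlatData M G X) (act : G →* Equiv.Perm X) (R : X → G → G → Prop) : Prop where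
  act_tr : ∀ i j u, u ∈ D.U i → u ∈ D.U j → act (D.tr i j) j = i
  refl : ∀ x g, R x g g
  symm : ∀ x g h, R x g h → R x h g
  trans : ∀ x g h k, R x g h → R x h k → R x g k
  step : ∀ i j u g, u ∈ D.U i → u ∈ D.U j → R (act g i) g (g * D.tr i j)

/-- the position of a lift at a point -/
def pos (D : FlatData M G X) (act : G →* Equiv.Perm X) {A : Type} (f : A → M) (g : A → G)
    (a : A) : X := act (g a) (D.idx (f a))

theorem pos_eq {D : FlatData M G X} {act : G →* Equiv.Perm X} {R : X → G → G → Prop}
    (hc : Compat D act R) {A : Type} {f : A → M} {g : A → G} {a : A} {j : X}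
    (hj : f a ∈ D.U j) : pos D act f g a = act (g a * D.tr (D.idx (f a)) j) j := by
  unfold pos
  rw [map_mul, Equiv.Perm.mul_apply, hc.act_tr _ _ _ (D.mem_idx (f a)) hj]

theorem pos_const {D : FlatData M G X} {act : G →* Equiv.Perm X} {R : X → G → G → Prop}
    (hc : Compat D act R) {A : Type} [TopologicalSpace A] [PreconnectedSpace A] {f : A → M}
    (hf : Continuous f) {g : A → G} (hg : D.IsLift f g) (a b : A) :
    pos D act f g a = pos D act f g b := by
  refine B2.const_of_local (fun a => pos D act f g a) (fun a => ?_) a b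
  have hj := D.mem_idx (f a)
  have hopen : ∀ᶠ b in nhds a, f b ∈ D.U (D.idx (f a)) :=
    hf.continuousAt.eventually ((D.isOpen_U _).mem_nhds hj)
  filter_upwards [hg a _ hj, hopen] with b h1 h2
  rw [pos_eq hc h2, h1, ← pos_eq hc hj]

theorem rel_const {D : FlatData M G X} {act : G →* Equiv.Perm X} {R : X → G → G → Prop}
    (hc : Compat D act R) {A : Type} [TopologicalSpace A] [PreconnectedSpace A] {f : A → M}
    (hf : Continuous f) {g : A → G} (hg : D.IsLift f g) (a b : A) :
    R (pos D act f g a) (g a) (g b) := by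
  have key : ∀ x : X, ∀ a, pos D act f g a = x → ∀ b, R x (g a) (g b) := by
    intro x a hax b
    have hpos : ∀ b, pos D act f g b = x := fun b => (pos_const hc hf hg b a).trans hax
    have hloc : ∀ c, ∀ᶠ d in nhds c, (R x (g a) (g d)) = (R x (g a) (g c)) := by
      intro c
      have hj := D.mem_idx (f c)
      have hopen : ∀ᶠ b in nhds c, f b ∈ D.U (D.idx (f c)) :=
        hf.continuousAt.eventually ((D.isOpen_U _).mem_nhds hj)
      filter_upwards [hg c _ hj, hopen] with d h1 h2
      have e1 : R x (g d) (g d * D.tr (D.idx (f d)) (D.idx (f c))) := by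
        have := hc.step (D.idx (f d)) (D.idx (f c)) (f d) (g d) (D.mem_idx _) h2
        rwa [show act (g d) (D.idx (f d)) = x from hpos d] at this
      have e2 : R x (g c) (g c * D.tr (D.idx (f c)) (D.idx (f c))) := by
        have := hc.step (D.idx (f c)) (D.idx (f c)) (f c) (g c) (D.mem_idx _) hj
        rwa [show act (g c) (D.idx (f c)) = x from hpos c] at this
      rw [h1] at e1
      have e3 : R x (g d) (g c) := hc.trans _ _ _ _ e1 (hc.symm _ _ _ e2)
      apply propext
      exact ⟨fun h => hc.trans _ _ _ _ h e3, fun h => hc.trans _ _ _ _ h (hc.symm _ _ _ e3)⟩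
    have h := B2.const_of_local (fun d => R x (g a) (g d)) hloc a b
    rw [← h]
    exact hc.refl _ _
  exact key _ a rfl b

theorem xval_eq {D : FlatData M G X} {act : G →* Equiv.Perm X} {R : X → G → G → Prop} {n : ℕ}
    (K : XCocycle G X act R n) {σ : SSimplex M n} {g g' : stdSimplex ℝ (Fin (n + 1)) → G}
    (hg : D.IsLift σ g) (hg' : D.IsLift σ g') :
    K.F (pos D act σ g' (vtx 0)) (fun i => g' (vtx i)) =
      K.F (pos D act σ g (vtx 0)) (fun i => g (vtx i)) := by
  have h := B2.lift_unique hg hg' (vtx 0)
  set c := g' (vtx 0) * (g (vtx 0))⁻¹ with hc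
  have e1 : (fun i => g' (vtx i)) = fun i : Fin (n + 1) => c * g (vtx i) := by
    ext i; exact h (vtx i)
  have e2 : pos D act σ g' (vtx 0) = act c (pos D act σ g (vtx 0)) := by
    unfold pos
    rw [h (vtx 0), map_mul, Equiv.Perm.mul_apply]
  rw [e1, e2, K.equivar]

theorem xcochain_exists (D : FlatData M G X) {act : G →* Equiv.Perm X}
    {R : X → G → G → Prop} (hc : Compat D act R) {n : ℕ} (K : XCocycle G X act R n) :
    ∃ c : SSimplex M n → ℝ, (∀ σ, |c σ| ≤ K.C) ∧
      (∀ σ : SSimplex M (n + 1), ∑ i : Fin (n + 2), (-1 : ℝ) ^ (i : ℕ) * c (face σ i) = 0) ∧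
      ∀ (σ : SSimplex M n) (g : stdSimplex ℝ (Fin (n + 1)) → G), D.IsLift σ g →
        c σ = K.F (act (g (vtx 0)) (D.idx (σ (vtx 0)))) (fun i => g (vtx i)) := by
  classical
  choose g hg _ using fun σ : SSimplex M n => exists_lift D σ (vtx 0) 1
  refine ⟨fun σ => K.F (pos D act σ (g σ) (vtx 0)) (fun i => g σ (vtx i)), ?_, ?_, ?_⟩
  · intro σ
    exact K.bound _ _
  · intro σ
    obtain ⟨G', hG', -⟩ := exists_lift D σ (vtx 0) 1
    have hface : ∀ i : Fin (n + 2), K.F (pos D act (face σ i) (g (face σ i)) (vtx 0))
        (fun k => g (face σ i) (vtx k)) =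
        K.F (pos D act σ G' (vtx 0)) (fun k => (fun l => G' (vtx l)) (i.succAbove k)) := by
      intro i
      have hl : D.IsLift (face σ i) (fun b => G' (stdSimplex.map i.succAbove b)) :=
        B2.lift_comp hG' (stdSimplex.continuous_map i.succAbove)
      rw [xval_eq K hl (hg (face σ i))]
      have e1 : ∀ k : Fin (n + 1), stdSimplex.map i.succAbove (vtx k) = vtx (i.succAbove k) := by
        intro k
        exact stdSimplex.map_vertex _ _
      have e2 : pos D act (face σ i) (fun b => G' (stdSimplex.map i.succAbove b)) (vtx 0) =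
          pos D act σ G' (vtx 0) := by
        have e3 : pos D act (face σ i) (fun b => G' (stdSimplex.map i.succAbove b)) (vtx 0) =
            pos D act σ G' (vtx (i.succAbove 0)) := by
          unfold pos
          have h4 : (face σ i) (vtx 0) = σ (vtx (i.succAbove 0)) := by
            rw [← e1 0]; rfl
          rw [h4]
          simp only [e1]
        rw [e3]
        exact pos_const hc σ.continuous hG' _ _
      rw [e2]
      simp only [e1]
    simp only [hface]
    refine K.cocycle _ (fun l => G' (vtx l)) fun i j => ?_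
    have h1 := rel_const hc σ.continuous hG' (vtx 0) (vtx i)
    have h2 := rel_const hc σ.continuous hG' (vtx 0) (vtx j)
    exact hc.trans _ _ _ _ (hc.symm _ _ _ h1) h2
  · intro σ g' hg'
    exact xval_eq K hg' (hg σ)

end MP8a95ee.Sp
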