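import Pool.Agent.Work.MP_8a95ee_gt.Sp.Flat
import Pool.Agent.Work.MP_8a95ee_gt.Sp.Cochain

/-!
The affine simplices of the cubes of a special cube complex, their faces and the parallel frames
along them.
-/

set_option autoImplicit false

namespace MP8a95ee.Sp

open MP8a95ee.RACG

open scoped Classical

noncomputable section

section pre

variable {V : Type}

/-- the set of the first `k` entries -/
def pre {n : ℕ} (s : Fin n → V) (k : ℕ) : Finset V :=
  (Finset.univ.filter fun j : Fin n => (j : ℕ) < k).image s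

theorem mem_pre {n : ℕ} {s : Fin n → V} {k : ℕ} {a : V} :
    a ∈ pre s k ↔ ∃ j : Fin n, (j : ℕ) < k ∧ s j = a := by
  simp [pre]

theorem pre_subset {n : ℕ} (s : Fin n → V) (k : ℕ) : pre s k ⊆ Finset.univ.image s :=
  Finset.image_subset_image (Finset.filter_subset _ _)

theorem pre_zero {n : ℕ} (s : Fin n → V) : pre s 0 = ∅ := by simp [pre]

theorem mem_pre_succ {n : ℕ} (s : Fin (n + 1) → V) (k : ℕ) (a : V) :
    a ∈ pre s (k + 1) ↔ a = s 0 ∨ a ∈ pre (Fin.tail s) k := by
  rw [mem_pre, mem_pre, Fin.exists_fin_succ]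
  simp only [Fin.val_zero, Nat.zero_lt_succ, true_and, Fin.val_succ, Nat.succ_lt_succ_iff,
    Fin.tail]
  simp only [eq_comm]

theorem mem_pre_init {n : ℕ} (s : Fin (n + 1) → V) (k : ℕ) (hk : k ≤ n) (a : V) :
    a ∈ pre s k ↔ a ∈ pre (Fin.init s) k := by
  rw [mem_pre, mem_pre]
  constructor
  · rintro ⟨j, hj, h⟩
    have hjn : (j : ℕ) < n := by omega
    exact ⟨⟨j, hjn⟩, hj, by rw [← h]; congr 1⟩
  · rintro ⟨j, hj, h⟩
    exact ⟨j.castSucc, hj, by rw [← h]; congr 1⟩

theorem pre_swap {n : ℕ} (s : Fin n → V) (p q : Fin n) (hpq : (q : ℕ) = (p : ℕ) + 1) (k : ℕ)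
    (hk : k ≠ (q : ℕ)) : pre (s ∘ Equiv.swap p q) k = pre s k := by
  have key : ∀ j : Fin n, ((Equiv.swap p q j : Fin n) : ℕ) < k ↔ (j : ℕ) < k := by
    intro j
    by_cases h1 : j = p
    · subst h1
      rw [Equiv.swap_apply_left]
      omega
    · by_cases h2 : j = q
      · subst h2
        rw [Equiv.swap_apply_right]
        omega
      · rw [Equiv.swap_apply_of_ne_of_ne h1 h2]
  ext x
  rw [mem_pre, mem_pre]
  constructor
  · rintro ⟨j, hj, h⟩
    exact ⟨Equiv.swap p q j, (key j).2 hj, h⟩
  · rintro ⟨j, hj, h⟩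
    refine ⟨Equiv.swap p q j, (key j).2 hj, ?_⟩
    rw [Function.comp, Equiv.swap_apply_self]
    exact h

theorem image_swap {n : ℕ} (s : Fin n → V) (p q : Fin n) :
    Finset.univ.image (s ∘ Equiv.swap p q) = Finset.univ.image s := by
  ext x
  simp only [Finset.mem_image, Finset.mem_univ, true_and, Function.comp]
  constructor
  · rintro ⟨j, h⟩
    exact ⟨_, h⟩
  · rintro ⟨j, h⟩
    exact ⟨Equiv.swap p q j, by rw [Equiv.swap_apply_self]; exact h⟩

/-- the coordinates of a point of the affine simplex -/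
def qaff {n : ℕ} (s : Fin n → V) (t : stdSimplex ℝ (Fin (n + 1))) (a : V) : ℝ :=
  ∑ k : Fin (n + 1), t k * if a ∈ pre s (k : ℕ) then 1 else 0

theorem qaff_mem {n : ℕ} (s : Fin n → V) (t : stdSimplex ℝ (Fin (n + 1))) (a : V) :
    0 ≤ qaff s t a ∧ qaff s t a ≤ 1 := by
  constructor
  · refine Finset.sum_nonneg fun k _ => mul_nonneg (stdSimplex.zero_le t k) ?_
    split_ifs <;> norm_num
  · rw [← stdSimplex.sum_eq_one t]
    refine Finset.sum_le_sum fun k _ => ?_
    have := stdSimplex.zero_le t k
    split_ifs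
    · rw [mul_one]
    · rw [mul_zero]; exact this

theorem continuous_qaff {n : ℕ} (s : Fin n → V) (a : V) :
    Continuous fun t : stdSimplex ℝ (Fin (n + 1)) => qaff s t a := by
  unfold qaff
  refine continuous_finsetSum _ fun k _ => Continuous.mul ?_ continuous_const
  exact (continuous_apply k).comp continuous_subtype_val

theorem qaff_map {n : ℕ} (s : Fin (n + 1) → V) (i : Fin (n + 2))
    (t : stdSimplex ℝ (Fin (n + 1))) (a : V) :
    qaff s (stdSimplex.map i.succAbove t) a =
      ∑ k : Fin (n + 1), t k * if a ∈ pre s (i.succAbove k : ℕ) then 1 else 0 := by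
  unfold qaff
  rw [stdSimplex.map_coe]
  simp_rw [FunOnFinite.linearMap_apply_apply, Finset.sum_mul]
  rw [← Finset.sum_fiberwise Finset.univ i.succAbove
    (fun j => t j * if a ∈ pre s (i.succAbove j : ℕ) then 1 else 0)]
  refine Finset.sum_congr rfl fun k _ => ?_
  refine Finset.sum_congr rfl fun j hj => ?_
  rw [(Finset.mem_filter.1 hj).2]

end pre

namespace Cx

variable {V X : Type} (C : Cx V X)

theorem cubePt_congr (x : X) (s : Finset V) {q q' : V → ℝ} (h : ∀ a ∈ s, q a = q' a) :
    C.cubePt x s q = C.cubePt x s q' := by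
  funext y
  rw [cubePt_apply, cubePt_apply]
  refine Finset.sum_congr rfl fun T hT => ?_
  rw [Finset.mem_filter, Finset.mem_powerset] at hT
  unfold wgt
  congr 1
  · exact Finset.prod_congr rfl fun a ha => h a (hT.1 ha)
  · exact Finset.prod_congr rfl fun a ha => by rw [h a (Finset.mem_sdiff.1 ha).1]

theorem cubePt_zero (x : X) {s : Finset V} {q : V → ℝ} {a : V} (ha : a ∈ s) (hq : q a = 0) :
    C.cubePt x s q = C.cubePt x (s.erase a) q := by
  funext y
  rw [cubePt_apply, cubePt_apply]
  symm
  have hsub : (s.erase a).powerset.filter (fun T => C.mv T x = y) ⊆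
      s.powerset.filter (fun T => C.mv T x = y) := by
    intro T hT
    rw [Finset.mem_filter, Finset.mem_powerset] at hT ⊢
    exact ⟨hT.1.trans (Finset.erase_subset _ _), hT.2⟩
  rw [← Finset.sum_subset hsub]
  · refine Finset.sum_congr rfl fun T hT => ?_
    rw [Finset.mem_filter, Finset.mem_powerset] at hT
    have haT : a ∉ T := fun h => Finset.notMem_erase a s (hT.1 h)
    unfold wgt
    congr 1
    have h1 : s \ T = insert a (s.erase a \ T) := by
      ext b
      simp only [Finset.mem_sdiff, Finset.mem_insert, Finset.mem_erase]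
      by_cases hb : b = a
      · subst hb; simp [ha, haT]
      · simp [hb]
    rw [h1, Finset.prod_insert (by simp), hq]
    simp
  · intro T hT hT'
    rw [Finset.mem_filter, Finset.mem_powerset] at hT hT'
    have haT : a ∈ T := by
      by_contra haT
      apply hT'
      refine ⟨?_, hT.2⟩
      intro b hb
      exact Finset.mem_erase.2 ⟨fun h => haT (h ▸ hb), hT.1 hb⟩
    unfold wgt
    rw [Finset.prod_eq_zero haT hq, zero_mul]

theorem cubePt_one {x : X} {s : Finset V} (hs : Clq C.G s) {q : V → ℝ} {a : V} (ha : a ∈ s)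
    (hq : q a = 1) : C.cubePt x s q = C.cubePt (C.r a x) (s.erase a) q := by
  funext y
  rw [cubePt_apply, cubePt_apply]
  symm
  refine Finset.sum_of_injOn (fun T => insert a T) ?_ ?_ ?_ ?_
  · intro T hT T' hT' h
    rw [Finset.mem_coe, Finset.mem_filter, Finset.mem_powerset] at hT hT'
    have h1 : a ∉ T := fun h => Finset.notMem_erase a s (hT.1 h)
    have h2 : a ∉ T' := fun h => Finset.notMem_erase a s (hT'.1 h)
    have := congrArg (fun U => Finset.erase U a) h
    simpa [Finset.erase_insert h1, Finset.erase_insert h2] using this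
  · intro T hT
    rw [Finset.mem_coe, Finset.mem_filter, Finset.mem_powerset] at hT
    have h1 : a ∉ T := fun h => Finset.notMem_erase a s (hT.1 h)
    have hTs : T ⊆ s := hT.1.trans (Finset.erase_subset _ _)
    rw [Finset.mem_coe, Finset.mem_filter, Finset.mem_powerset]
    refine ⟨Finset.insert_subset ha hTs, ?_⟩
    rw [C.mv_insert hs ha hTs h1]
    exact hT.2
  · intro T hT hT'
    rw [Finset.mem_filter, Finset.mem_powerset] at hT
    have haT : a ∉ T := by
      intro haT
      apply hT'
      refine ⟨T.erase a, ?_, Finset.insert_erase haT⟩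
      rw [Finset.mem_coe, Finset.mem_filter, Finset.mem_powerset]
      have h1 : T.erase a ⊆ s := (Finset.erase_subset _ _).trans hT.1
      refine ⟨Finset.erase_subset_erase _ hT.1, ?_⟩
      rw [← C.mv_insert hs ha h1 (Finset.notMem_erase _ _), Finset.insert_erase haT]
      exact hT.2
    unfold wgt
    rw [Finset.prod_eq_zero (i := a) (s := s \ T) (Finset.mem_sdiff.2 ⟨ha, haT⟩) (by rw [hq]; ring),
      mul_zero]
  · intro T hT
    rw [Finset.mem_filter, Finset.mem_powerset] at hT
    have h1 : a ∉ T := fun h => Finset.notMem_erase a s (hT.1 h)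
    unfold wgt
    rw [Finset.prod_insert h1, hq, one_mul]
    congr 2
    ext b
    simp only [Finset.mem_sdiff, Finset.mem_insert, Finset.mem_erase]
    by_cases hb : b = a
    · subst hb; simp
    · simp [hb]

/-- the affine simplex: from the corner `x` along the directions `s 0`, `s 1`, ... -/
def affPt {n : ℕ} (x : X) (s : Fin n → V) (t : stdSimplex ℝ (Fin (n + 1))) : X → ℝ :=
  C.cubePt x (Finset.univ.image s) (qaff s t)

theorem continuous_affPt {n : ℕ} (x : X) (s : Fin n → V) : Continuous (C.affPt x s) := by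
  refine continuous_pi fun y => ?_
  unfold affPt
  simp only [cubePt_apply]
  refine continuous_finsetSum _ fun T _ => ?_
  unfold wgt
  refine Continuous.mul ?_ ?_
  · exact continuous_finsetProd _ fun a _ => continuous_qaff s a
  · exact continuous_finsetProd _ fun a _ => continuous_const.sub (continuous_qaff s a)

/-- the affine simplex as a singular simplex -/
def aff {n : ℕ} (x : X) (s : Fin n → V) (h : C.IsCube x (Finset.univ.image s)) :
    SSimplex C.space n :=
  ⟨fun t => ⟨C.affPt x s t, x, Finset.univ.image s, qaff s t, h, qaff_mem s t, rfl⟩,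
    (C.continuous_affPt x s).subtype_mk _⟩

theorem aff_apply {n : ℕ} (x : X) (s : Fin n → V) (h : C.IsCube x (Finset.univ.image s))
    (t : stdSimplex ℝ (Fin (n + 1))) : ((C.aff x s h t : C.space) : X → ℝ) = C.affPt x s t := rfl

theorem image_tail {n : ℕ} {s : Fin (n + 1) → V} (hs : Function.Injective s) :
    (Finset.univ.image s).erase (s 0) = Finset.univ.image (Fin.tail s) := by
  ext b
  simp only [Finset.mem_erase, Finset.mem_image, Finset.mem_univ, true_and, Fin.tail]
  constructor
  · rintro ⟨hb, j, hj⟩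
    obtain rfl | ⟨i, rfl⟩ := Fin.eq_zero_or_eq_succ j
    · exact absurd hj.symm hb
    · exact ⟨i, hj⟩
  · rintro ⟨i, hi⟩
    refine ⟨?_, _, hi⟩
    intro h
    rw [h] at hi
    exact Fin.succ_ne_zero i (hs hi)

theorem image_init {n : ℕ} {s : Fin (n + 1) → V} (hs : Function.Injective s) :
    (Finset.univ.image s).erase (s (Fin.last n)) = Finset.univ.image (Fin.init s) := by
  ext b
  simp only [Finset.mem_erase, Finset.mem_image, Finset.mem_univ, true_and, Fin.init]
  constructor
  · rintro ⟨hb, j, hj⟩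
    obtain ⟨i, rfl⟩ | rfl := Fin.eq_castSucc_or_eq_last j
    · exact ⟨i, hj⟩
    · exact absurd hj.symm hb
  · rintro ⟨i, hi⟩
    refine ⟨?_, _, hi⟩
    intro h
    rw [h] at hi
    exact (Fin.castSucc_lt_last i).ne (hs hi)

/-- the face opposite to the first vertex -/
theorem affPt_zero {n : ℕ} {x : X} {s : Fin (n + 1) → V} (hs : Function.Injective s)
    (h : Clq C.G (Finset.univ.image s)) (t : stdSimplex ℝ (Fin (n + 1))) :
    C.affPt x s (stdSimplex.map (Fin.succAbove 0) t) = C.affPt (C.r (s 0) x) (Fin.tail s) t := by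
  unfold affPt
  have h0 : s 0 ∈ Finset.univ.image s := Finset.mem_image_of_mem _ (Finset.mem_univ _)
  rw [C.cubePt_one h h0, image_tail hs]
  · refine C.cubePt_congr _ _ fun a ha => ?_
    have ha0 : a ≠ s 0 := by
      rw [← image_tail hs] at ha
      exact (Finset.mem_erase.1 ha).1
    rw [qaff_map]
    unfold qaff
    refine Finset.sum_congr rfl fun k _ => ?_
    rw [Fin.zero_succAbove, Fin.val_succ]
    simp only [mem_pre_succ, ha0, false_or]
  · rw [qaff_map]
    refine Eq.trans (Finset.sum_congr rfl fun k _ => ?_) (stdSimplex.sum_eq_one t)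
    rw [Fin.zero_succAbove, Fin.val_succ]
    simp only [mem_pre_succ, true_or, if_true, mul_one]

/-- the face opposite to the last vertex -/
theorem affPt_last {n : ℕ} {x : X} {s : Fin (n + 1) → V} (hs : Function.Injective s)
    (t : stdSimplex ℝ (Fin (n + 1))) :
    C.affPt x s (stdSimplex.map (Fin.succAbove (Fin.last (n + 1))) t) =
      C.affPt x (Fin.init s) t := by
  unfold affPt
  have h0 : s (Fin.last n) ∈ Finset.univ.image s := Finset.mem_image_of_mem _ (Finset.mem_univ _)
  rw [C.cubePt_zero x h0, image_init hs]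
  · refine C.cubePt_congr _ _ fun a ha => ?_
    rw [qaff_map]
    unfold qaff
    refine Finset.sum_congr rfl fun k _ => ?_
    rw [Fin.succAbove_last, Fin.val_castSucc]
    simp only [mem_pre_init s k (by omega)]
  · rw [qaff_map]
    refine Finset.sum_eq_zero fun k _ => ?_
    rw [Fin.succAbove_last, Fin.val_castSucc, if_neg, mul_zero]
    rw [mem_pre]
    rintro ⟨j, hj, hj'⟩
    have := hs hj'
    subst this
    simp at hj
    omega

/-- the other faces -/
theorem affPt_mid {n : ℕ} {x : X} (s : Fin (n + 1) → V) (i : Fin (n + 2)) (p q : Fin (n + 1))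
    (hpq : (q : ℕ) = (p : ℕ) + 1) (hi : (i : ℕ) = (q : ℕ)) (t : stdSimplex ℝ (Fin (n + 1))) :
    C.affPt x (s ∘ Equiv.swap p q) (stdSimplex.map i.succAbove t) =
      C.affPt x s (stdSimplex.map i.succAbove t) := by
  unfold affPt
  rw [image_swap]
  refine C.cubePt_congr _ _ fun a _ => ?_
  rw [qaff_map, qaff_map]
  refine Finset.sum_congr rfl fun k _ => ?_
  rw [pre_swap s p q hpq]
  intro h
  exact Fin.succAbove_ne i k (Fin.ext (h.trans hi.symm))

/-- the vertices -/
theorem qaff_vtx {n : ℕ} (s : Fin n → V) (k : Fin (n + 1)) (a : V) :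
    qaff s (vtx k) a = if a ∈ pre s (k : ℕ) then 1 else 0 := by
  unfold qaff
  rw [Finset.sum_eq_single k]
  · simp [vtx]
  · intro l _ hl
    simp [vtx, hl]
  · intro h
    exact absurd (Finset.mem_univ k) h

theorem affPt_vtx_pos {n : ℕ} {x : X} {s : Fin n → V} (k : Fin (n + 1)) {y : X}
    (hy : 0 < C.affPt x s (vtx k) y) : y = C.mv (pre s k) x := by
  obtain ⟨T, hT, hTy, hw⟩ := C.exists_of_cubePt_ne (y := y) (x := x)
    (s := Finset.univ.image s) (q := qaff s (vtx k)) hy.ne'
  rw [← hTy]
  congr 1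
  unfold wgt at hw
  rw [mul_ne_zero_iff, Finset.prod_ne_zero_iff, Finset.prod_ne_zero_iff] at hw
  ext a
  constructor
  · intro ha
    have h1 := hw.1 a ha
    rw [qaff_vtx] at h1
    by_contra h2
    rw [if_neg h2] at h1
    exact h1 rfl
  · intro ha
    by_contra h2
    have h1 := hw.2 a (Finset.mem_sdiff.2 ⟨pre_subset s k ha, h2⟩)
    rw [qaff_vtx, if_pos ha] at h1
    exact h1 (by ring)

/-- the parallel frame along an affine simplex -/
theorem isLift_aff (hE : C.Embedded) {n : ℕ} {x : X} {s : Fin n → V}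
    (h : C.IsCube x (Finset.univ.image s)) :
    (C.flat hE).IsLift (C.aff x s h) (fun t => C.tr x ((C.flat hE).idx (C.aff x s h t))) ∧
    ∀ k, (C.flat hE).idx (C.aff x s h (vtx k)) = C.mv (pre s k) x := by
  have hcorner : ∀ (t : stdSimplex ℝ (Fin (n + 1))) (j : X), C.aff x s h t ∈ (C.flat hE).U j →
      ∃ T ⊆ Finset.univ.image s, C.mv T x = j := by
    intro t j hj
    have hj' : 0 < C.affPt x s t j := hj
    obtain ⟨T, hT, hTy, -⟩ := C.exists_of_cubePt_ne (y := j) (x := x)
      (s := Finset.univ.image s) (q := qaff s t) hj'.ne'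
    exact ⟨T, hT, hTy⟩
  have hval : ∀ (t : stdSimplex ℝ (Fin (n + 1))) (j : X), C.aff x s h t ∈ (C.flat hE).U j →
      C.tr x ((C.flat hE).idx (C.aff x s h t)) * C.tr ((C.flat hE).idx (C.aff x s h t)) j =
        C.tr x j := by
    intro t j hj
    obtain ⟨A, hA, hAi⟩ := hcorner t _ ((C.flat hE).mem_idx (C.aff x s h t))
    obtain ⟨B, hB, hBj⟩ := hcorner t j hj
    rw [← hAi, ← hBj]
    have := C.tr_comp hE h (Finset.empty_subset _) hA hB
    rwa [C.mv_empty] at this
  refine ⟨?_, fun k => ?_⟩
  · intro t j hj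
    have hopen : IsOpen ((C.aff x s h) ⁻¹' (C.flat hE).U j) :=
      ((C.flat hE).isOpen_U j).preimage (C.aff x s h).continuous
    filter_upwards [hopen.mem_nhds hj] with b hb
    rw [flat_tr]
    rw [hval b j hb, hval t j hj]
  · exact C.affPt_vtx_pos k ((C.flat hE).mem_idx (C.aff x s h (vtx k)))

end Cx

end

end MP8a95ee.Sp
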