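import Pool.Agent.Work.MP_8a95ee_gt.Sp.Aff
import Pool.Agent.Work.MP_8a95ee_gt.Bd.B01

/-!
The cellular fundamental cycle of an oriented special cube complex.
-/

set_option autoImplicit false

namespace MP8a95ee.Sp

open MP8a95ee.RACG

open scoped Classical

noncomputable section

namespace Cx

variable {V X : Type} [Fintype V] [Fintype X] (C : Cx V X)

/-- compatible orientation cycles of the links (of dimension `n - 1`) -/
structure IsOrient (n : ℕ) (o : X → (Fin n → V) → ℝ) : Prop where
  alt : ∀ x s i j, i ≠ j → o x (s ∘ Equiv.swap i j) = - o x s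
  supp : ∀ x s, o x s ≠ 0 → C.IsCube x (Finset.univ.image s)
  cycle : ∀ x s i, ∑ a, o x (Function.update s i a) = 0
  flip : ∀ x s i, C.r (s i) x ≠ x → o (C.r (s i) x) s = - o x s

/-- the affine simplex as a chain (zero if the directions do not span a cube) -/
def affChain {n : ℕ} (x : X) (s : Fin n → V) : SChain C.space n :=
  if h : C.IsCube x (Finset.univ.image s) then Finsupp.single (C.aff x s h) 1 else 0

/-- the cellular cycle: every cube is counted once for each of its corners -/
def zchain {n : ℕ} (o : X → (Fin n → V) → ℝ) : SChain C.space n :=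
  ∑ x, ∑ s : Fin n → V, o x s • C.affChain x s

variable {C}

omit [Fintype X] in
theorem IsOrient.inj {n : ℕ} {o : X → (Fin n → V) → ℝ} (ho : C.IsOrient n o) {x : X}
    {s : Fin n → V} (hs : o x s ≠ 0) : Function.Injective s := by
  intro i j hij
  by_contra hne
  have h1 := ho.alt x s i j hne
  have h2 : s ∘ Equiv.swap i j = s := by
    funext k
    simp only [Function.comp_apply]
    rcases eq_or_ne k i with rfl | hki
    · rw [Equiv.swap_apply_left, hij]
    · rcases eq_or_ne k j with rfl | hkj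
      · rw [Equiv.swap_apply_right, hij]
      · rw [Equiv.swap_apply_of_ne_of_ne hki hkj]
  rw [h2] at h1
  exact hs (by linarith)

omit [Fintype X] in
theorem IsOrient.flip' {n : ℕ} {o : X → (Fin n → V) → ℝ} (ho : C.IsOrient n o) (x : X)
    (s : Fin n → V) (i : Fin n) : o (C.r (s i) x) s = - o x s := by
  by_cases h : C.r (s i) x = x
  · have h0 : o x s = 0 := by
      by_contra hne
      exact (ho.supp x s hne).1 (s i) (Finset.mem_image_of_mem _ (Finset.mem_univ _)) h
    rw [h, h0, neg_zero]
  · exact ho.flip x s i h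

omit [Fintype X] in
theorem IsOrient.flip_mv {n : ℕ} {o : X → (Fin n → V) → ℝ} (ho : C.IsOrient n o)
    (s : Fin n → V) (hcl : Clq C.G (Finset.univ.image s)) {B : Finset V}
    (hB : B ⊆ Finset.univ.image s) (x : X) :
    o (C.mv B x) s = (-1) ^ B.card * o x s := by
  induction B using Finset.induction_on generalizing x with
  | empty => simp [mv_empty]
  | insert a B ha ih =>
    have haσ : a ∈ Finset.univ.image s := hB (Finset.mem_insert_self _ _)
    have hBσ : B ⊆ Finset.univ.image s := (Finset.subset_insert _ _).trans hB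
    rw [C.mv_insert hcl haσ hBσ ha, ih hBσ, Finset.card_insert_of_notMem ha, pow_succ]
    obtain ⟨i, -, rfl⟩ := Finset.mem_image.1 haσ
    rw [ho.flip']
    ring

section sums

variable {M : Type*} [AddCommGroup M] [Module ℝ M]

omit [Fintype X] in
theorem IsOrient.cons {n : ℕ} {o : X → (Fin (n + 1) → V) → ℝ} (ho : C.IsOrient (n + 1) o)
    (x : X) (s : Fin n → V) : ∑ a, o x (Fin.cons a s) = 0 := by
  by_cases hV : Nonempty V
  · obtain ⟨a0⟩ := hV
    have h := ho.cycle x (Fin.cons a0 s) 0
    simpa only [Fin.update_cons_zero] using h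
  · haveI := not_nonempty_iff.1 hV
    simp

omit [Fintype X] in
theorem IsOrient.snoc {n : ℕ} {o : X → (Fin (n + 1) → V) → ℝ} (ho : C.IsOrient (n + 1) o)
    (x : X) (s : Fin n → V) : ∑ a, o x (Fin.snoc s a) = 0 := by
  by_cases hV : Nonempty V
  · obtain ⟨a0⟩ := hV
    have h := ho.cycle x (Fin.snoc s a0) (Fin.last n)
    simpa only [Fin.update_snoc_last] using h
  · haveI := not_nonempty_iff.1 hV
    simp

omit [Fintype X] [Module ℝ M] in
theorem sum_cons {n : ℕ} (f : (Fin (n + 1) → V) → M) :
    ∑ s : Fin (n + 1) → V, f s = ∑ s : Fin n → V, ∑ a, f (Fin.cons a s) := by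
  rw [← Fintype.sum_prod_type']
  symm
  refine Fintype.sum_equiv ((Equiv.prodComm _ _).trans (Fin.consEquiv fun _ => V)) _ _ ?_
  intro p
  rfl

omit [Fintype X] [Module ℝ M] in
theorem sum_snoc {n : ℕ} (f : (Fin (n + 1) → V) → M) :
    ∑ s : Fin (n + 1) → V, f s = ∑ s : Fin n → V, ∑ a, f (Fin.snoc s a) := by
  rw [← Fintype.sum_prod_type']
  symm
  refine Fintype.sum_equiv ((Equiv.prodComm _ _).trans (Fin.snocEquiv fun _ => V)) _ _ ?_
  intro p
  rfl

theorem case_zero {n : ℕ} {o : X → (Fin (n + 1) → V) → ℝ} (ho : C.IsOrient (n + 1) o)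
    (Ψ : X → (Fin n → V) → M) :
    ∑ x, ∑ s : Fin (n + 1) → V, o x s • Ψ (C.r (s 0) x) (Fin.tail s) = 0 := by
  rw [Finset.sum_comm]
  have h1 : ∀ s : Fin (n + 1) → V, ∑ x, o x s • Ψ (C.r (s 0) x) (Fin.tail s) =
      - ∑ x, o x s • Ψ x (Fin.tail s) := by
    intro s
    rw [← Finset.sum_neg_distrib]
    refine Fintype.sum_equiv (C.perm (s 0)) _ _ fun x => ?_
    rw [perm_apply, ho.flip', neg_smul, neg_neg]
  rw [Finset.sum_congr rfl fun s _ => h1 s, Finset.sum_neg_distrib, neg_eq_zero, Finset.sum_comm]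
  refine Finset.sum_eq_zero fun x _ => ?_
  rw [sum_cons]
  refine Finset.sum_eq_zero fun s _ => ?_
  simp only [Fin.tail_cons]
  rw [← Finset.sum_smul, ho.cons, zero_smul]

theorem case_last {n : ℕ} {o : X → (Fin (n + 1) → V) → ℝ} (ho : C.IsOrient (n + 1) o)
    (Ψ : X → (Fin n → V) → M) :
    ∑ x, ∑ s : Fin (n + 1) → V, o x s • Ψ x (Fin.init s) = 0 := by
  refine Finset.sum_eq_zero fun x _ => ?_
  rw [sum_snoc]
  refine Finset.sum_eq_zero fun s _ => ?_
  simp only [Fin.init_snoc]
  rw [← Finset.sum_smul, ho.snoc, zero_smul]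

omit [Fintype X] in
theorem case_swap {n : ℕ} {o : (Fin n → V) → ℝ} (p q : Fin n) (hpq : p ≠ q)
    (ho : ∀ s, o (s ∘ Equiv.swap p q) = - o s)
    (Ψ : (Fin n → V) → M) (hΨ : ∀ s, o s ≠ 0 → Ψ (s ∘ Equiv.swap p q) = Ψ s) :
    ∑ s : Fin n → V, o s • Ψ s = 0 := by
  have key : ∑ s : Fin n → V, o s • Ψ s = - ∑ s : Fin n → V, o s • Ψ s := by
    rw [← Finset.sum_neg_distrib]
    refine Fintype.sum_equiv ((Equiv.swap p q).arrowCongr (Equiv.refl V)) _ _ fun s => ?_
    have h : ((Equiv.swap p q).arrowCongr (Equiv.refl V)) s = s ∘ Equiv.swap p q := by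
      funext k
      simp [Equiv.arrowCongr]
    rw [h, ho]
    by_cases hs : o s = 0
    · rw [hs]; simp
    · rw [hΨ s hs, neg_smul, neg_neg]
  have h2 : (2 : ℝ) • ∑ s : Fin n → V, o s • Ψ s = 0 := by
    rw [two_smul]
    nth_rewrite 1 [key]
    exact neg_add_cancel _
  exact (smul_eq_zero.1 h2).resolve_left two_ne_zero

end sums

/-- the `i`-th face of an affine simplex as a chain -/
def faceChain (C : Cx V X) {n : ℕ} (i : Fin (n + 2)) (x : X) (s : Fin (n + 1) → V) :
    SChain C.space n :=
  if h : C.IsCube x (Finset.univ.image s) then Finsupp.single (face (C.aff x s h) i) 1 else 0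

omit [Fintype V] [Fintype X] in
theorem faceChain_zero {n : ℕ} {x : X} {s : Fin (n + 1) → V} (hs : Function.Injective s)
    (h : C.IsCube x (Finset.univ.image s)) :
    C.faceChain 0 x s = C.affChain (C.r (s 0) x) (Fin.tail s) := by
  have h' : C.IsCube (C.r (s 0) x) (Finset.univ.image (Fin.tail s)) := by
    refine (h.r (Finset.mem_image_of_mem _ (Finset.mem_univ _))).mono ?_
    rw [← image_tail hs]
    exact Finset.erase_subset _ _
  unfold faceChain affChain
  rw [dif_pos h, dif_pos h']
  congr 1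
  refine ContinuousMap.ext fun t => Subtype.ext ?_
  exact C.affPt_zero hs h.clq t

omit [Fintype V] [Fintype X] in
theorem faceChain_last {n : ℕ} {x : X} {s : Fin (n + 1) → V} (hs : Function.Injective s)
    (h : C.IsCube x (Finset.univ.image s)) :
    C.faceChain (Fin.last (n + 1)) x s = C.affChain x (Fin.init s) := by
  have h' : C.IsCube x (Finset.univ.image (Fin.init s)) := by
    refine h.mono ?_
    rw [← image_init hs]
    exact Finset.erase_subset _ _
  unfold faceChain affChain
  rw [dif_pos h, dif_pos h']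
  congr 1
  refine ContinuousMap.ext fun t => Subtype.ext ?_
  exact C.affPt_last hs t

omit [Fintype V] [Fintype X] in
theorem faceChain_mid {n : ℕ} {x : X} (s : Fin (n + 1) → V) (i : Fin (n + 2)) (p q : Fin (n + 1))
    (hpq : (q : ℕ) = (p : ℕ) + 1) (hi : (i : ℕ) = (q : ℕ)) :
    C.faceChain i x (s ∘ Equiv.swap p q) = C.faceChain i x s := by
  unfold faceChain
  by_cases h : C.IsCube x (Finset.univ.image s)
  · have h' : C.IsCube x (Finset.univ.image (s ∘ Equiv.swap p q)) := by
      rw [image_swap]; exact h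
    rw [dif_pos h, dif_pos h']
    congr 1
    refine ContinuousMap.ext fun t => Subtype.ext ?_
    exact C.affPt_mid s i p q hpq hi t
  · have h' : ¬ C.IsCube x (Finset.univ.image (s ∘ Equiv.swap p q)) := by
      rw [image_swap]; exact h
    rw [dif_neg h, dif_neg h']

theorem sum_faceChain {n : ℕ} {o : X → (Fin (n + 1) → V) → ℝ} (ho : C.IsOrient (n + 1) o)
    (i : Fin (n + 2)) : ∑ x, ∑ s : Fin (n + 1) → V, o x s • C.faceChain i x s = 0 := by
  by_cases h0 : i = 0
  · subst h0
    rw [← case_zero ho (fun x s => C.affChain x s)]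
    refine Finset.sum_congr rfl fun x _ => Finset.sum_congr rfl fun s _ => ?_
    by_cases hs : o x s = 0
    · rw [hs, zero_smul, zero_smul]
    · rw [faceChain_zero (ho.inj hs) (ho.supp x s hs)]
  · by_cases hl : i = Fin.last (n + 1)
    · subst hl
      rw [← case_last ho (fun x s => C.affChain x s)]
      refine Finset.sum_congr rfl fun x _ => Finset.sum_congr rfl fun s _ => ?_
      by_cases hs : o x s = 0
      · rw [hs, zero_smul, zero_smul]
      · rw [faceChain_last (ho.inj hs) (ho.supp x s hs)]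
    · have h0' : (i : ℕ) ≠ 0 := fun h => h0 (Fin.ext h)
      have hl' : (i : ℕ) ≠ n + 1 := fun h => hl (Fin.ext h)
      have hi := i.isLt
      refine Finset.sum_eq_zero fun x _ => ?_
      have hpq : (⟨(i : ℕ) - 1, by omega⟩ : Fin (n + 1)) ≠ ⟨(i : ℕ), by omega⟩ := by
        intro h
        have := congrArg Fin.val h
        simp only at this
        omega
      exact case_swap _ _ hpq (fun s => ho.alt x s _ _ hpq) _
        (fun s _ => faceChain_mid s i _ _ (by simp only; omega) rfl)

theorem bd_zchain {n : ℕ} {o : X → (Fin (n + 1) → V) → ℝ} (ho : C.IsOrient (n + 1) o) :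
    bd (C.zchain o) = 0 := by
  have h1 : ∀ x, ∀ s : Fin (n + 1) → V, bd (o x s • C.affChain x s) =
      ∑ i : Fin (n + 2), ((-1 : ℝ) ^ (i : ℕ)) • (o x s • C.faceChain i x s) := by
    intro x s
    unfold affChain faceChain
    by_cases h : C.IsCube x (Finset.univ.image s)
    · simp only [dif_pos h]
      rw [Finsupp.smul_single, smul_eq_mul, mul_one, B5.bd_single]
      refine Finset.sum_congr rfl fun i _ => ?_
      rw [Finsupp.smul_single, Finsupp.smul_single, smul_eq_mul, smul_eq_mul, mul_one]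
    · simp only [dif_neg h]
      simp [bd]
  unfold zchain
  rw [B5.bd_sum]
  simp_rw [B5.bd_sum, h1]
  have h2 : ∑ x, ∑ s : Fin (n + 1) → V, ∑ i : Fin (n + 2),
      ((-1 : ℝ) ^ (i : ℕ)) • (o x s • C.faceChain i x s) =
      ∑ i : Fin (n + 2), ((-1 : ℝ) ^ (i : ℕ)) •
        ∑ x, ∑ s : Fin (n + 1) → V, o x s • C.faceChain i x s := by
    rw [Finset.sum_congr rfl fun x _ => Finset.sum_comm]
    rw [Finset.sum_comm]
    refine Finset.sum_congr rfl fun i _ => ?_
    rw [Finset.smul_sum]
    refine Finset.sum_congr rfl fun x _ => ?_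
    rw [Finset.smul_sum]
  rw [h2]
  refine Finset.sum_eq_zero fun i _ => ?_
  rw [sum_faceChain ho, smul_zero]

/-- evaluation of a cochain on the cycle -/
theorem eval_zchain {n : ℕ} (o : X → (Fin n → V) → ℝ) (c : SSimplex C.space n → ℝ) :
    ((C.zchain o).sum fun σ a => a * c σ) =
      ∑ x, ∑ s : Fin n → V, o x s *
        (if h : C.IsCube x (Finset.univ.image s) then c (C.aff x s h) else 0) := by
  have hlin : ∀ z : SChain C.space n, (z.sum fun σ x => x * c σ) =
      Finsupp.linearCombination ℝ c z := by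
    intro z
    rw [Finsupp.linearCombination_apply]
    rfl
  rw [hlin, zchain, map_sum]
  refine Finset.sum_congr rfl fun x _ => ?_
  rw [map_sum]
  refine Finset.sum_congr rfl fun s _ => ?_
  rw [map_smul, smul_eq_mul]
  congr 1
  unfold affChain
  by_cases h : C.IsCube x (Finset.univ.image s)
  · rw [dif_pos h, dif_pos h, Finsupp.linearCombination_single, one_smul]
  · rw [dif_neg h, dif_neg h, map_zero]

end Cx

end

end MP8a95ee.Sp
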