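import Pool.Agent.Work.MP_8a95ee_gt.Defs

/-!
# Special cube complexes: definitions

A (C-)special cube complex in combinatorial form: `X` is the set of vertices, `V` the set of labels
of edges (classes of parallel edges), `G` the graph on `V` whose edges are the pairs of labels that
occur in squares, `r a x` is the other end of the edge with label `a` at the vertex `x`, and
`r a x = x` if `x` has no edge with label `a`.
-/

set_option autoImplicit false

namespace MP8a95ee.Sp

/-- The data of a special cube complex with vertex set `X` and label set `V`.  At every vertex
there is at most one edge of every label, and if two labels are adjacent in `G` then the edges with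
these labels at a vertex span a square (`comm`).  A cube is given by a corner `x` and a set `s` of
pairwise adjacent labels of edges at `x`. -/
structure Cx (V X : Type) where
  /-- the graph of commuting labels -/
  G : SimpleGraph V
  /-- the other end of the edge with label `a` at `x`; it is `x` if there is no such edge -/
  r : V → X → X
  invol : ∀ a x, r a (r a x) = x
  comm : ∀ a b, G.Adj a b → ∀ x, r a (r b x) = r b (r a x)

namespace Cx

variable {V X : Type} (C : Cx V X)

/-- The set `s` of labels is the set of directions of a cube with corner `x`: all `a ∈ s` are
labels of edges at `x` and they are pairwise adjacent in `G`. -/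
def IsCube (x : X) (s : Finset V) : Prop :=
  (∀ a ∈ s, C.r a x ≠ x) ∧ ∀ a ∈ s, ∀ b ∈ s, a ≠ b → C.G.Adj a b

/-- The vertex reached from `x` along edges with the labels in `T`, each used once (for a cube
with corner `x` and directions containing `T` the order of the labels plays no role). -/
noncomputable def mv (T : Finset V) (x : X) : X := T.toList.foldr C.r x

/-- The cubes are embedded: two different cubes with the same corner `x` have different opposite
corners. -/
def Embedded : Prop :=
  ∀ (x : X) (s t : Finset V), C.IsCube x s → C.IsCube x t → C.mv s x = C.mv t x → s = t

open Classical in
/-- The point with coordinates `q` of the cube with corner `x` and directions `s`: the standard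
cube `[0, 1] ^ s` is mapped to `ℝ ^ X` by the map which is affine in each coordinate and which maps
the corner `T ⊆ s` of `[0, 1] ^ s` to the standard basis vector of the vertex `mv T x`. -/
noncomputable def cubePt (x : X) (s : Finset V) (q : V → ℝ) : X → ℝ := fun y =>
  ∑ T ∈ s.powerset.filter (fun T => C.mv T x = y), (∏ a ∈ T, q a) * ∏ a ∈ s \ T, (1 - q a)

/-- The topological space of the cube complex, a subspace of `ℝ ^ X`: the union of all cubes. -/
def space : Set (X → ℝ) :=
  {u | ∃ (x : X) (s : Finset V) (q : V → ℝ), C.IsCube x s ∧ (∀ a, 0 ≤ q a ∧ q a ≤ 1) ∧
    u = C.cubePt x s q}

end Cx

end MP8a95ee.Sp
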