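import Pool.Agent.Work.MP_8a95ee_gt.Sp.Cycle
import Pool.Agent.Work.MP_8a95ee_gt.DefsE

/-!
# Special cube complexes: links, orientations, Euler characteristic
-/

set_option autoImplicit false

namespace MP8a95ee.Sp.Cx

section

variable {k : ℕ} {X : Type}

open Classical in
/-- The link of the vertex `x`: the simplicial complex whose faces are the sets of directions of
the cubes with corner `x` (written as finite sets of natural numbers). -/
noncomputable def link (C : Cx (Fin k) X) (x : X) : Finset (Finset ℕ) :=
  (Finset.univ.filter fun s : Finset (Fin k) => C.IsCube x s).image
    (Finset.map Fin.valEmbedding)

end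

section

variable {V X : Type} [Fintype V] (C : Cx V X)

/-- An orientation of an `n`-dimensional closed special cube complex: for every vertex `x` an
integral `(n - 1)`-cycle of the link of `x`, written as an alternating function on ordered
`n`-tuples of labels (`alt`) which vanishes unless the entries are the directions of an
`n`-dimensional cube at `x` (`supp`) and does not vanish on the `n`-dimensional cubes (`full`), whose
boundary is zero (`cycle`), such that the two orientations of a cube given by two adjacent corners
are opposite as orientations of the tangent cone (`flip`). -/
structure Oriented (n : ℕ) (o : X → (Fin n → V) → ℤ) : Prop where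
  alt : ∀ x s i j, i ≠ j → o x (s ∘ Equiv.swap i j) = - o x s
  supp : ∀ x s, o x s ≠ 0 → C.IsCube x (Set.range s).toFinite.toFinset
  full : ∀ x s, Function.Injective s → C.IsCube x (Set.range s).toFinite.toFinset → o x s ≠ 0
  cycle : ∀ x s i, ∑ a, o x (Function.update s i a) = 0
  flip : ∀ x s i, C.r (s i) x ≠ x → o (C.r (s i) x) s = - o x s

end

section

variable {V X : Type} [Fintype V] [Fintype X] (C : Cx V X)

open Classical in
/-- The cubes of the complex: a cube is given by its set of directions and its set of corners. -/
noncomputable def cubes : Finset (Finset V × Finset X) :=
  ((Finset.univ : Finset (X × Finset V)).filter fun p => C.IsCube p.1 p.2).image fun p =>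
    (p.2, p.2.powerset.image fun T => C.mv T p.1)

/-- The Euler characteristic: the alternating sum of the numbers of cubes of each dimension. -/
noncomputable def eulerChar : ℤ := ∑ c ∈ C.cubes, (-1) ^ c.1.card

/-- The fundamental cycle of an oriented special cube complex: the sum over all vertices `x` and
all ordered sets `s` of directions of `n`-dimensional cubes at `x` of `o x s` times the affine
simplex which goes from the corner `x` along the directions `s 0, s 1, ...`; every cube is
triangulated from each of its `2 ^ n` corners, so this is `2 ^ n` times the fundamental class. -/
noncomputable def fundCycle {n : ℕ} (o : X → (Fin n → V) → ℤ) : SChain C.space n :=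
  C.zchain fun x s => (o x s : ℝ)

end

end MP8a95ee.Sp.Cx
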