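import Pool.Agent.Work.MP_8a95ee_gt.Sp.Act
import Pool.Agent.Work.MP_8a95ee_gt.Setup

/-!
Charts and transition elements of the space of a special cube complex.
-/

set_option autoImplicit false

namespace MP8a95ee.Sp

open MP8a95ee.RACG

open scoped Classical

noncomputable section

namespace Cx

variable {V X : Type} (C : Cx V X)

/-- a summand of `cubePt` -/
def wgt (s T : Finset V) (q : V → ℝ) : ℝ := (∏ a ∈ T, q a) * ∏ a ∈ s \ T, (1 - q a)

theorem cubePt_apply (x : X) (s : Finset V) (q : V → ℝ) (y : X) :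
    C.cubePt x s q y = ∑ T ∈ s.powerset.filter (fun T => C.mv T x = y), wgt s T q := rfl

theorem wgt_nonneg {q : V → ℝ} (hq : ∀ a, 0 ≤ q a ∧ q a ≤ 1) (s T : Finset V) : 0 ≤ wgt s T q :=
  mul_nonneg (Finset.prod_nonneg fun a _ => (hq a).1)
    (Finset.prod_nonneg fun a _ => sub_nonneg.2 (hq a).2)

theorem cubePt_nonneg {q : V → ℝ} (hq : ∀ a, 0 ≤ q a ∧ q a ≤ 1) (x : X) (s : Finset V) (y : X) :
    0 ≤ C.cubePt x s q y :=
  Finset.sum_nonneg fun T _ => wgt_nonneg hq s T

theorem exists_of_cubePt_ne {q : V → ℝ} {x : X} {s : Finset V} {y : X}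
    (h : C.cubePt x s q y ≠ 0) : ∃ T ⊆ s, C.mv T x = y ∧ wgt s T q ≠ 0 := by
  rw [cubePt_apply] at h
  obtain ⟨T, hT, hne⟩ := Finset.exists_ne_zero_of_sum_ne_zero h
  rw [Finset.mem_filter, Finset.mem_powerset] at hT
  exact ⟨T, hT.1, hT.2, hne⟩

theorem cubePt_mv (hE : C.Embedded) {x : X} {s : Finset V} (hs : C.IsCube x s) (q : V → ℝ)
    {T : Finset V} (hT : T ⊆ s) : C.cubePt x s q (C.mv T x) = wgt s T q := by
  rw [cubePt_apply, Finset.sum_eq_single T]
  · intro T' hT' hne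
    rw [Finset.mem_filter, Finset.mem_powerset] at hT'
    exact absurd (hE x T' T (hs.mono hT'.1) (hs.mono hT) hT'.2) hne
  · intro h
    exfalso
    apply h
    rw [Finset.mem_filter, Finset.mem_powerset]
    exact ⟨hT, rfl⟩

theorem exists_pos (u : C.space) : ∃ y, 0 < (u : X → ℝ) y := by
  obtain ⟨x, s, q, hs, hq, hu⟩ := u.2
  refine ⟨C.mv (s.filter fun a => 1 / 2 ≤ q a) x, ?_⟩
  rw [hu, cubePt_apply]
  refine Finset.sum_pos' (fun T _ => wgt_nonneg hq s T) ⟨s.filter fun a => 1 / 2 ≤ q a, ?_, ?_⟩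
  · rw [Finset.mem_filter, Finset.mem_powerset]
    exact ⟨Finset.filter_subset _ _, rfl⟩
  · unfold wgt
    refine mul_pos (Finset.prod_pos fun a ha => ?_) (Finset.prod_pos fun a ha => ?_)
    · have := (Finset.mem_filter.1 ha).2
      linarith
    · rw [Finset.mem_sdiff, Finset.mem_filter] at ha
      have h : ¬ (1 / 2 ≤ q a) := fun h => ha.2 ⟨ha.1, h⟩
      push Not at h
      linarith

/-- all vertices of the support are corners of one cube -/
theorem exists_cube (u : C.space) : ∃ (x : X) (s : Finset V), C.IsCube x s ∧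
    ∀ y, 0 < (u : X → ℝ) y → ∃ T ⊆ s, C.mv T x = y := by
  obtain ⟨x, s, q, hs, hq, hu⟩ := u.2
  refine ⟨x, s, hs, fun y hy => ?_⟩
  obtain ⟨T, hT, hTy, -⟩ := C.exists_of_cubePt_ne (q := q) (x := x) (s := s) (y := y)
    (by rw [← hu]; exact hy.ne')
  exact ⟨T, hT, hTy⟩

/-! ### transition elements -/

/-- the transition element from the chart of `x` to the chart of `y` -/
def tr (x y : X) : W C.G :=
  if h : ∃ T, C.IsCube x T ∧ C.mv T x = y then wT C.G h.choose else 1

theorem tr_mv (hE : C.Embedded) {x : X} {T : Finset V} (hT : C.IsCube x T) :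
    C.tr x (C.mv T x) = wT C.G T := by
  have h : ∃ T', C.IsCube x T' ∧ C.mv T' x = C.mv T x := ⟨T, hT, rfl⟩
  unfold tr
  rw [dif_pos h]
  rw [hE x _ T h.choose_spec.1 hT h.choose_spec.2]

theorem symmDiff_sub {A B s : Finset V} (hA : A ⊆ s) (hB : B ⊆ s) : symmDiff A B ⊆ s := by
  intro x hx
  rw [Finset.mem_symmDiff] at hx
  rcases hx with hx | hx
  · exact hA hx.1
  · exact hB hx.1

theorem tr_mv_mv (hE : C.Embedded) {x : X} {s A B : Finset V} (hs : C.IsCube x s) (hA : A ⊆ s)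
    (hB : B ⊆ s) : C.tr (C.mv A x) (C.mv B x) = wT C.G (symmDiff A B) := by
  have h1 : C.mv B x = C.mv (symmDiff A B) (C.mv A x) := by
    rw [C.mv_mv hs.clq (symmDiff_sub hA hB) hA]
    congr 1
    rw [symmDiff_comm A B, symmDiff_assoc, symmDiff_self, symmDiff_bot]
  rw [h1, C.tr_mv hE ((hs.mv hA).mono (symmDiff_sub hA hB))]

theorem tr_comp (hE : C.Embedded) {x : X} {s A B D : Finset V} (hs : C.IsCube x s) (hA : A ⊆ s)
    (hB : B ⊆ s) (hD : D ⊆ s) :
    C.tr (C.mv A x) (C.mv B x) * C.tr (C.mv B x) (C.mv D x) = C.tr (C.mv A x) (C.mv D x) := by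
  rw [C.tr_mv_mv hE hs hA hB, C.tr_mv_mv hE hs hB hD, C.tr_mv_mv hE hs hA hD,
    wT_mul C.G hs.clq (symmDiff_sub hA hB) (symmDiff_sub hB hD)]
  congr 1
  rw [symmDiff_assoc, ← symmDiff_assoc B B D, symmDiff_self, bot_symmDiff]

/-- the action of a transition element, seen from the right -/
theorem act_tr (hE : C.Embedded) {x : X} {s A B : Finset V} (hs : C.IsCube x s) (hA : A ⊆ s)
    (hB : B ⊆ s) : C.act (C.tr (C.mv A x) (C.mv B x)) (C.mv B x) = C.mv A x := by
  rw [C.tr_mv_mv hE hs hA hB, act_wT, C.mv_mv hs.clq (symmDiff_sub hA hB) hB]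
  congr 1
  rw [symmDiff_assoc, symmDiff_self, symmDiff_bot]

/-- the flat transition data of a special cube complex -/
def flat (hE : C.Embedded) : FlatData C.space (W C.G) X where
  U x := {u | 0 < (u : X → ℝ) x}
  isOpen_U x := isOpen_lt continuous_const ((continuous_apply x).comp continuous_subtype_val)
  idx u := (C.exists_pos u).choose
  mem_idx u := (C.exists_pos u).choose_spec
  tr := C.tr
  tr_self x u hu := by
    have h := C.tr_mv hE (C.isCube_empty x)
    rw [C.mv_empty, wT_empty] at h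
    exact h
  tr_comp i j k u hi hj hk := by
    obtain ⟨x, s, hs, h⟩ := C.exists_cube u
    obtain ⟨A, hA, rfl⟩ := h i hi
    obtain ⟨B, hB, rfl⟩ := h j hj
    obtain ⟨D, hD, rfl⟩ := h k hk
    exact C.tr_comp hE hs hA hB hD

theorem flat_U (hE : C.Embedded) (x : X) (u : C.space) :
    u ∈ (C.flat hE).U x ↔ 0 < (u : X → ℝ) x := Iff.rfl

theorem flat_tr (hE : C.Embedded) : (C.flat hE).tr = C.tr := rfl

/-- in one cube: transition between charts of a point -/
theorem flat_cube (hE : C.Embedded) (u : C.space) {i j : X} (hi : u ∈ (C.flat hE).U i)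
    (hj : u ∈ (C.flat hE).U j) : ∃ T, C.IsCube i T ∧ C.mv T i = j ∧ C.tr i j = wT C.G T ∧
      C.act (C.tr i j) j = i := by
  obtain ⟨x, s, hs, h⟩ := C.exists_cube u
  obtain ⟨A, hA, rfl⟩ := h i hi
  obtain ⟨B, hB, rfl⟩ := h j hj
  refine ⟨symmDiff A B, (hs.mv hA).mono (symmDiff_sub hA hB), ?_, C.tr_mv_mv hE hs hA hB,
    C.act_tr hE hs hA hB⟩
  rw [C.mv_mv hs.clq (symmDiff_sub hA hB) hA]
  congr 1
  rw [symmDiff_comm A B, symmDiff_assoc, symmDiff_self, symmDiff_bot]

end Cx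

end

end MP8a95ee.Sp
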