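import Pool.Agent.Work.MP_8a95ee_gt.Bd.B08
import Pool.Agent.Work.MP_8a95ee_gt.Bd.B05
import Pool.Agent.Work.MP_8a95ee_gt.Bd.B06
import Pool.Agent.Work.MP_8a95ee_gt.R.ItemB4
import Pool.Agent.Work.MP_8a95ee_gt.R.ItemB5
import Pool.Agent.Work.MP_8a95ee_gt.R.ItemB6
import Pool.Agent.Work.MP_8a95ee_gt.R.ItemB7a
import Pool.Agent.Work.MP_8a95ee_gt.R.ItemB9
import Pool.Agent.Work.MP_8a95ee_gt.R.ItemB10

/-!
The main theorem for special cube complexes.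
-/

set_option autoImplicit false

namespace MP8a95ee.Sp.Cx

theorem item9 : RA.S_B9 :=
  RA.itemB9 RA.itemB5 (RA.itemB6 RA.itemB3 RA.itemB4) (RA.itemB7 RA.itemB7a)
    (RA.itemB8 RA.itemB8a (RA.itemB8c RA.itemB8a) (RA.itemB8d RA.itemB1 RA.itemB8a RA.itemB8b))

theorem item11 : RA.S_B11 := RA.itemB11 RA.itemB2

theorem main {k m : ℕ} {X : Type} [Fintype X] (C : Cx (Fin k) X) (hE : C.Embedded)
    (hS : ∀ x, RA.IsHSphere (C.link x) (m + 1)) (o : X → (Fin (m + 1) → Fin k) → ℤ)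
    (ho : C.Oriented (m + 1) o) :
    bd (C.fundCycle o) = 0 ∧
    (C.eulerChar : ℚ) = ∑ x, ∑ σ ∈ C.link x, (-1 / 2 : ℚ) ^ σ.card ∧
    ((∀ ε : ℝ, 0 < ε → ∃ b : SChain C.space (m + 2), l1 (C.fundCycle o + bd b) < ε) →
      (∀ x, ∑ σ ∈ C.link x, (-1 / 2 : ℚ) ^ σ.card = 0) ∧ C.eulerChar = 0) ∧
    ((∃ x, ∑ σ ∈ C.link x, (-1 / 2 : ℚ) ^ σ.card ≠ 0) →
      ∃ c : ℝ, 0 < c ∧ ∀ (Y : Type) [TopologicalSpace Y] (f : C(Y, C.space)) (lam : ℝ)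
        (z : SChain Y (m + 1)) (w : SChain C.space (m + 2)),
        push f z = lam • C.fundCycle o + bd w → c * |lam| ≤ l1 z) :=
  final RA.prfA6 item9 RA.itemB10 item11 C hE hS o ho

end MP8a95ee.Sp.Cx
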