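import Pool.Agent.Work.MP_8a95ee_gt.Sp.Main

/-!
# Gromov's question for closed manifolds with a special cubulation

Let `C` be a finite (C-)special cube complex in the sense of Haglund and Wise, given by its set of
vertices `X`, its labels `Fin k` (the hyperplanes) and the involutions `C.r a`, whose cubes are
embedded (`C.Embedded`).  Assume that the link of every vertex is a real homology sphere of
dimension `m` (`RA.IsHSphere (C.link x) (m + 1)`: every link in the link of `x` has the reduced
real homology of a sphere of the right dimension), so that the space `C.space` is a closed real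
homology manifold of dimension `n = m + 1`, and that it is oriented (`C.Oriented (m + 1) o`).  It
is aspherical, since special cube complexes are nonpositively curved.

The fundamental cycle `C.fundCycle o` is a cycle.  If its class has l1-seminorm zero (that is, the
simplicial volume vanishes), then the curvature `∑ (-1/2) ^ |s|` (sum over all cubes `s` with
corner `x`) vanishes at every vertex `x`, and the Euler characteristic is zero.  If the curvature
does not vanish at some vertex, then there is a constant `c > 0` such that every class `z` of every
space `Y` which is mapped to `lam` times the class of the fundamental cycle has l1-norm at least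
`c * |lam|`.
-/

set_option autoImplicit false

namespace Pool.Agent.Results.MP_8a95ee_gt.SpecialCubulations

open MP8a95ee MP8a95ee.Sp

theorem result (k m : ℕ) (X : Type) [Fintype X] (C : Cx (Fin k) X) (hE : C.Embedded)
    (hS : ∀ x, RA.IsHSphere (C.link x) (m + 1)) (o : X → (Fin (m + 1) → Fin k) → ℤ)
    (ho : C.Oriented (m + 1) o) :
    bd (C.fundCycle o) = 0 ∧
    ((∀ ε : ℝ, 0 < ε → ∃ b : SChain C.space (m + 2), l1 (C.fundCycle o + bd b) < ε) →
      (∀ x, ∑ s ∈ C.link x, (-1 / 2 : ℚ) ^ s.card = 0) ∧ C.eulerChar = 0) ∧
    ((C.eulerChar ≠ 0 ∨ ∃ x, ∑ s ∈ C.link x, (-1 / 2 : ℚ) ^ s.card ≠ 0) →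
      ∃ c : ℝ, 0 < c ∧ ∀ (Y : Type) [TopologicalSpace Y] (f : C(Y, C.space)) (lam : ℝ)
        (z : SChain Y (m + 1)) (w : SChain C.space (m + 2)),
        push f z = lam • C.fundCycle o + bd w → c * |lam| ≤ l1 z) := by
  obtain ⟨h1, h2, h3, h4⟩ := Cx.main C hE hS o ho
  refine ⟨h1, h3, fun h => h4 ?_⟩
  rcases h with h | h
  · by_contra hcon
    push Not at hcon
    rw [Finset.sum_eq_zero fun x _ => hcon x] at h2
    exact h (by exact_mod_cast h2)
  · exact h

end Pool.Agent.Results.MP_8a95ee_gt.SpecialCubulations
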